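import Mathlib

open Set Metric Filter Topology MeasureTheory
open scoped RealInnerProductSpace

namespace Pool.Agent.R219.LQ

set_option linter.unusedSectionVars false

variable {V : Type*} [NormedAddCommGroup V] [InnerProductSpace ℝ V] [FiniteDimensional ℝ V]
  [MeasurableSpace V] [BorelSpace V]

/-- The distortion inequality for a linear map. -/
def QCat (K : ℝ) (A : V →L[ℝ] V) : Prop := ‖A‖ ^ (Module.finrank ℝ V) ≤ K * A.det

omit [FiniteDimensional ℝ V] [MeasurableSpace V] [BorelSpace V] in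
lemma qcat_id {K : ℝ} (hK : 1 ≤ K) : QCat K (ContinuousLinearMap.id ℝ V) := by
  unfold QCat
  have h1 : ‖ContinuousLinearMap.id ℝ V‖ ^ (Module.finrank ℝ V) ≤ 1 :=
    pow_le_one₀ (norm_nonneg _) ContinuousLinearMap.norm_id_le
  have h2 : (ContinuousLinearMap.id ℝ V).det = 1 := by
    simp [ContinuousLinearMap.det]
  rw [h2]; linarith

omit [FiniteDimensional ℝ V] [MeasurableSpace V] [BorelSpace V] in
lemma qcat_smul {K c : ℝ} (hc : 0 ≤ c) {A : V →L[ℝ] V} (h : QCat K A) : QCat K (c • A) := by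
  unfold QCat at *
  have h2 : (c • A).det = c ^ (Module.finrank ℝ V) * A.det := by
    simp [ContinuousLinearMap.det, LinearMap.det_smul]
  rw [h2, norm_smul, mul_pow, Real.norm_eq_abs, abs_of_nonneg hc]
  have := mul_le_mul_of_nonneg_left h (pow_nonneg hc (Module.finrank ℝ V))
  linarith

/-- The properties of displacement functions used in the construction. -/
structure Good (K L : ℝ) (D : V → V) : Prop where
  supp : ∀ x, 1 ≤ ‖x‖ → D x = 0
  lip : ∀ x y, ‖D x - D y‖ ≤ L * ‖x - y‖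
  bij : Function.Bijective (fun x => x + D x)
  qc : ∀ᵐ x, ∃ A : V →L[ℝ] V, HasFDerivAt (fun x => x + D x) A x ∧ QCat K A

lemma good_zero {K : ℝ} (hK : 1 ≤ K) : Good (V := V) K 0 (fun _ => 0) := by
  refine ⟨fun _ _ => rfl, fun x y => by simp, ?_, ?_⟩
  · simp only [add_zero]
    exact Function.bijective_id
  · refine Eventually.of_forall fun x => ⟨ContinuousLinearMap.id ℝ V, ?_, qcat_id hK⟩
    simp only [add_zero]
    exact hasFDerivAt_id x

lemma Good.norm_lt {K L : ℝ} {D : V → V} (h : Good K L D) {x : V} (hx : ‖x‖ < 1) :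
    ‖x + D x‖ < 1 := by
  by_contra hc
  push Not at hc
  have h1 : (x + D x) + D (x + D x) = x + D x := by rw [h.supp _ hc, add_zero]
  have h2 := h.bij.1 h1
  rw [h2] at hc
  linarith

lemma Good.exists_preimage {K L : ℝ} {D : V → V} (h : Good K L D) {y : V} (hy : ‖y‖ < 1) :
    ∃ x, ‖x‖ < 1 ∧ x + D x = y := by
  obtain ⟨x, hx⟩ := h.bij.2 y
  refine ⟨x, ?_, hx⟩
  by_contra hc
  push Not at hc
  simp only [h.supp x hc, add_zero] at hx
  rw [hx] at hc
  linarith

lemma Good.norm_le {K L : ℝ} {D : V → V} (h : Good K L D) (x : V) :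
    ‖D x‖ ≤ 2 := by
  by_cases hx : ‖x‖ < 1
  · have h1 := h.norm_lt hx
    have : D x = (x + D x) - x := by abel
    rw [this]
    exact (norm_sub_le _ _).trans (by linarith)
  · rw [h.supp x (not_lt.1 hx)]; simp

/-- Transfer of an almost everywhere property under a homothety. -/
lemma ae_comp_homothety {P : V → Prop} (h : ∀ᵐ x, P x) {c : ℝ} (hc : c ≠ 0) (z : V) :
    ∀ᵐ x, P (c • (x - z)) := by
  have h1 : ∀ᵐ x : V, P (c • x) := by
    rw [ae_iff] at h ⊢
    have : {x : V | ¬ P (c • x)} = (fun x => c • x) ⁻¹' {x | ¬ P x} := rfl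
    rw [this, Measure.addHaar_preimage_smul _ hc, h, mul_zero]
  exact (measurePreserving_sub_right (volume : Measure V) z).quasiMeasurePreserving.ae h1

/-! ### The multi insertion -/

section multi

variable {ι : Type*}

open Classical in
/-- Insertion of the rescaled displacements `D i` in the balls `B (c i) ρ`. -/
noncomputable def multi (c : ι → V) (ρ : ℝ) (D : ι → V → V) : V → V := fun x =>
  if h : ∃ i, ‖x - c i‖ < ρ then ρ • D h.choose (ρ⁻¹ • (x - c h.choose)) else 0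

variable {c : ι → V} {ρ : ℝ} {D : ι → V → V}

omit [InnerProductSpace ℝ V] [FiniteDimensional ℝ V] [MeasurableSpace V] [BorelSpace V] in
lemma ball_unique (hsep : ∀ i j, i ≠ j → 2 * ρ ≤ ‖c i - c j‖) {x : V} {i j : ι}
    (hi : ‖x - c i‖ < ρ) (hj : ‖x - c j‖ < ρ) : i = j := by
  by_contra hne
  have h1 := hsep i j hne
  have h2 : c i - c j = (x - c j) - (x - c i) := by abel
  rw [h2] at h1
  have := norm_sub_le (x - c j) (x - c i)
  linarith

omit [FiniteDimensional ℝ V] [MeasurableSpace V] [BorelSpace V] in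
lemma multi_in (hsep : ∀ i j, i ≠ j → 2 * ρ ≤ ‖c i - c j‖) {x : V} {i : ι}
    (hi : ‖x - c i‖ < ρ) : multi c ρ D x = ρ • D i (ρ⁻¹ • (x - c i)) := by
  have h : ∃ i, ‖x - c i‖ < ρ := ⟨i, hi⟩
  have h2 : h.choose = i := ball_unique hsep h.choose_spec hi
  unfold multi
  rw [dif_pos h, h2]

omit [FiniteDimensional ℝ V] [MeasurableSpace V] [BorelSpace V] in
lemma multi_out {x : V} (h : ∀ i, ρ ≤ ‖x - c i‖) : multi c ρ D x = 0 := by
  unfold multi
  rw [dif_neg]
  push Not
  exact h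

variable {K L : ℝ}

lemma multi_in_form (hρ : 0 < ρ) (hsep : ∀ i j, i ≠ j → 2 * ρ ≤ ‖c i - c j‖) {x : V} {i : ι}
    (hi : ‖x - c i‖ < ρ) : x + multi c ρ D x =
      c i + ρ • (ρ⁻¹ • (x - c i) + D i (ρ⁻¹ • (x - c i))) := by
  rw [multi_in hsep hi, smul_add, smul_inv_smul₀ hρ.ne']
  abel

lemma norm_rescale (hρ : 0 < ρ) {x z : V} (hi : ‖x - z‖ < ρ) : ‖ρ⁻¹ • (x - z)‖ < 1 := by
  rw [norm_smul, norm_inv, Real.norm_eq_abs, abs_of_pos hρ, inv_mul_lt_iff₀ hρ]
  linarith

lemma norm_rescale' (hρ : 0 < ρ) {x z : V} (hi : ρ ≤ ‖x - z‖) : 1 ≤ ‖ρ⁻¹ • (x - z)‖ := by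
  rw [norm_smul, norm_inv, Real.norm_eq_abs, abs_of_pos hρ, le_inv_mul_iff₀ hρ]
  linarith

lemma multi_in_ball (hρ : 0 < ρ) (hsep : ∀ i j, i ≠ j → 2 * ρ ≤ ‖c i - c j‖)
    (hD : ∀ i, Good K L (D i)) {x : V} {i : ι} (hi : ‖x - c i‖ < ρ) :
    ‖x + multi c ρ D x - c i‖ < ρ := by
  rw [multi_in_form hρ hsep hi, add_sub_cancel_left, norm_smul, Real.norm_eq_abs, abs_of_pos hρ]
  have := (hD i).norm_lt (norm_rescale hρ hi)
  nlinarith

lemma multi_bij (hρ : 0 < ρ) (hsep : ∀ i j, i ≠ j → 2 * ρ ≤ ‖c i - c j‖)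
    (hD : ∀ i, Good K L (D i)) : Function.Bijective (fun x => x + multi c ρ D x) := by
  constructor
  · intro x y hxy
    simp only at hxy
    by_cases hx : ∃ i, ‖x - c i‖ < ρ
    · obtain ⟨i, hi⟩ := hx
      have h1 := multi_in_ball hρ hsep hD hi
      by_cases hy : ∃ j, ‖y - c j‖ < ρ
      · obtain ⟨j, hj⟩ := hy
        have h2 := multi_in_ball hρ hsep hD hj
        rw [← hxy] at h2
        have hij := ball_unique hsep h1 h2
        subst hij
        rw [multi_in_form hρ hsep hi, multi_in_form hρ hsep hj] at hxy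
        have h3 := smul_right_injective V hρ.ne' (add_left_cancel hxy)
        have h4 := (hD i).bij.1 h3
        have h5 := smul_right_injective V (inv_ne_zero hρ.ne') h4
        exact sub_left_injective h5
      · push Not at hy
        rw [multi_out hy, add_zero] at hxy
        rw [hxy] at h1
        exact absurd h1 (not_lt.2 (hy i))
    · push Not at hx
      rw [multi_out hx, add_zero] at hxy
      by_cases hy : ∃ j, ‖y - c j‖ < ρ
      · obtain ⟨j, hj⟩ := hy
        have h2 := multi_in_ball hρ hsep hD hj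
        rw [← hxy] at h2
        exact absurd h2 (not_lt.2 (hx j))
      · push Not at hy
        rw [multi_out hy, add_zero] at hxy
        exact hxy
  · intro z
    by_cases hz : ∃ i, ‖z - c i‖ < ρ
    · obtain ⟨i, hi⟩ := hz
      obtain ⟨x, hx, hxz⟩ := (hD i).exists_preimage (norm_rescale hρ hi)
      have hxi : ‖(c i + ρ • x) - c i‖ < ρ := by
        rw [add_sub_cancel_left, norm_smul, Real.norm_eq_abs, abs_of_pos hρ]
        nlinarith
      refine ⟨c i + ρ • x, ?_⟩
      simp only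
      rw [multi_in_form hρ hsep hxi, add_sub_cancel_left, inv_smul_smul₀ hρ.ne', hxz,
        smul_inv_smul₀ hρ.ne']
      abel
    · push Not at hz
      exact ⟨z, by simp only; rw [multi_out hz, add_zero]⟩

lemma multi_lip (hL : 0 ≤ L) (hρ : 0 < ρ) (hsep : ∀ i j, i ≠ j → 2 * ρ ≤ ‖c i - c j‖)
    (hD : ∀ i, Good K L (D i)) (x y : V) :
    ‖multi c ρ D x - multi c ρ D y‖ ≤ (2 * L) * ‖x - y‖ := by
  have hd : ∀ i x y, ‖ρ • D i (ρ⁻¹ • (x - c i)) - ρ • D i (ρ⁻¹ • (y - c i))‖ ≤ L * ‖x - y‖ := by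
    intro i x y
    rw [← smul_sub, norm_smul, Real.norm_eq_abs, abs_of_pos hρ]
    have h1 := (hD i).lip (ρ⁻¹ • (x - c i)) (ρ⁻¹ • (y - c i))
    rw [← smul_sub, norm_smul, norm_inv, Real.norm_eq_abs, abs_of_pos hρ,
      sub_sub_sub_cancel_right] at h1
    calc ρ * _ ≤ ρ * (L * (ρ⁻¹ * ‖x - y‖)) := mul_le_mul_of_nonneg_left h1 hρ.le
      _ = L * ‖x - y‖ := by field_simp
  -- the value is small when `y` is not in the ball of `x`
  have key : ∀ x y : V, (∀ i, ‖x - c i‖ < ρ → ρ ≤ ‖y - c i‖) →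
      ‖multi c ρ D x‖ ≤ L * ‖x - y‖ := by
    intro x y hxy
    by_cases hx : ∃ i, ‖x - c i‖ < ρ
    · obtain ⟨i, hi⟩ := hx
      have h1 := hd i x y
      rw [(hD i).supp _ (norm_rescale' hρ (hxy i hi)), smul_zero, sub_zero] at h1
      rw [multi_in hsep hi]
      exact h1
    · push Not at hx
      rw [multi_out hx, norm_zero]
      positivity
  by_cases h : ∃ i, ‖x - c i‖ < ρ ∧ ‖y - c i‖ < ρ
  · obtain ⟨i, hi, hj⟩ := h
    rw [multi_in hsep hi, multi_in hsep hj]
    refine (hd i x y).trans ?_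
    have : 0 ≤ L * ‖x - y‖ := by positivity
    linarith
  · push Not at h
    have h1 := key x y h
    have h2 := key y x (by
      intro i hi
      by_contra hc
      push Not at hc
      have := h i hc
      linarith)
    rw [norm_sub_rev y x] at h2
    refine (norm_sub_le _ _).trans ?_
    linarith

lemma multi_qc [Countable ι] (hK : 1 ≤ K) (hρ : 0 < ρ)
    (hsep : ∀ i j, i ≠ j → 2 * ρ ≤ ‖c i - c j‖)
    (hcl : IsClosed (⋃ i, closedBall (c i) ρ))
    (hD : ∀ i, Good K L (D i)) :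
    ∀ᵐ x, ∃ A : V →L[ℝ] V, HasFDerivAt (fun x => x + multi c ρ D x) A x ∧ QCat K A := by
  have h1 : ∀ᵐ x : V, ∀ i, ∃ A : V →L[ℝ] V,
      HasFDerivAt (fun x => x + D i x) A (ρ⁻¹ • (x - c i)) ∧ QCat K A := by
    rw [ae_all_iff]
    intro i
    exact ae_comp_homothety (hD i).qc (inv_ne_zero hρ.ne') (c i)
  have h2 : ∀ᵐ x : V, ∀ i, x ∉ sphere (c i) ρ := by
    rw [ae_all_iff]
    intro i
    exact measure_eq_zero_iff_ae_notMem.1 (Measure.addHaar_sphere_of_ne_zero _ _ hρ.ne')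
  filter_upwards [h1, h2] with x h1 h2
  by_cases hx : ∃ i, ‖x - c i‖ < ρ
  · obtain ⟨i, hi⟩ := hx
    obtain ⟨A, hA, hqA⟩ := h1 i
    refine ⟨A, ?_, hqA⟩
    have hev : (fun x => x + multi c ρ D x) =ᶠ[𝓝 x]
        fun x => c i + ρ • ((fun y => y + D i y) (ρ⁻¹ • (x - c i))) := by
      have : ball (c i) ρ ∈ 𝓝 x := isOpen_ball.mem_nhds (by rw [mem_ball, dist_eq_norm]; exact hi)
      filter_upwards [this] with y hy
      rw [mem_ball, dist_eq_norm] at hy
      exact multi_in_form hρ hsep hy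
    refine HasFDerivAt.congr_of_eventuallyEq ?_ hev
    have hin : HasFDerivAt (fun x : V => ρ⁻¹ • (x - c i)) (ρ⁻¹ • ContinuousLinearMap.id ℝ V) x :=
      ((hasFDerivAt_id x).sub_const (c i)).const_smul ρ⁻¹
    have h3 := ((hA.comp x hin).const_smul ρ).const_add (c i)
    have hAe : A = ρ • (A.comp (ρ⁻¹ • ContinuousLinearMap.id ℝ V)) := by
      ext v
      simp [hρ.ne']
    rw [hAe]
    exact h3
  · push Not at hx
    have hxc : x ∉ ⋃ i, closedBall (c i) ρ := by
      rw [mem_iUnion]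
      rintro ⟨i, hi⟩
      rw [mem_closedBall, dist_eq_norm] at hi
      exact h2 i (by rw [mem_sphere, dist_eq_norm]; exact le_antisymm hi (hx i))
    refine ⟨ContinuousLinearMap.id ℝ V, ?_, qcat_id hK⟩
    have hev : (fun x => x + multi c ρ D x) =ᶠ[𝓝 x] fun x => x := by
      filter_upwards [hcl.isOpen_compl.mem_nhds hxc] with y hy
      rw [multi_out, add_zero]
      intro i
      by_contra hc
      push Not at hc
      exact hy (mem_iUnion.2 ⟨i, by rw [mem_closedBall, dist_eq_norm]; exact hc.le⟩)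
    exact HasFDerivAt.congr_of_eventuallyEq (hasFDerivAt_id x) hev

lemma good_multi [Finite ι] (hK : 1 ≤ K) (hL : 0 ≤ L) (hρ : 0 < ρ)
    (hsep : ∀ i j, i ≠ j → 2 * ρ ≤ ‖c i - c j‖) (hin : ∀ i, ‖c i‖ + ρ ≤ 1)
    (hD : ∀ i, Good K L (D i)) : Good K (2 * L) (multi c ρ D) := by
  refine ⟨?_, multi_lip hL hρ hsep hD, multi_bij hρ hsep hD,
    multi_qc hK hρ hsep (isClosed_iUnion_of_finite fun i => isClosed_closedBall) hD⟩
  intro x hx
  apply multi_out
  intro i
  have h1 := hin i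
  have h2 : ‖x‖ ≤ ‖x - c i‖ + ‖c i‖ := by
    have := norm_add_le (x - c i) (c i)
    rwa [sub_add_cancel] at this
  linarith

end multi

end Pool.Agent.R219.LQ
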