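import Pool.Agent.R219.LQ.RingQC

open Set Metric Filter Topology MeasureTheory
open scoped RealInnerProductSpace

namespace Pool.Agent.R219.LQ

set_option linter.unusedSectionVars false
set_option linter.unusedVariables false

variable {V : Type*} [NormedAddCommGroup V] [InnerProductSpace ℝ V] [FiniteDimensional ℝ V]
  [MeasurableSpace V] [BorelSpace V]

variable {a b K L : ℝ} {D : V → V}

lemma Good.mono {L' : ℝ} (h : Good K L D) (hL : L ≤ L') : Good K L' D :=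
  ⟨h.supp, fun x y => (h.lip x y).trans (mul_le_mul_of_nonneg_right hL (norm_nonneg _)),
    h.bij, h.qc⟩

/-- The two centres. -/
noncomputable def ctr (e : V) : Bool → V := fun i => if i then (2 / 3 : ℝ) • e else 0

/-- The displacement of the `k`-th map. -/
noncomputable def gD (e : V) : ℕ → V → V
  | 0 => fun _ => 0
  | k + 1 => multi (ctr e) (1 / 3) (fun _ => ringD (3 / 16) (3 / 4) (gD e k))

/-- Iterated contracting rings. -/
noncomputable def FD (D : V → V) : ℕ → V → V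
  | 0 => D
  | j + 1 => ringD (1 / 16) (1 / 256) (FD D j)

/-- Points with digits given by a word. -/
noncomputable def pt (q : ℝ) : List Bool → ℝ
  | [] => 0
  | b :: w => (if b then 1 else 0) + pt q w / q

lemma pt_nonneg {q : ℝ} (hq : 0 < q) (w : List Bool) : 0 ≤ pt q w := by
  induction w with
  | nil => exact le_rfl
  | cons b w ih =>
    unfold pt
    have : (0 : ℝ) ≤ if b then 1 else 0 := by split_ifs <;> norm_num
    positivity

lemma pt_le {q : ℝ} (hq : 4 ≤ q) (w : List Bool) : pt q w ≤ 4 / 3 := by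
  induction w with
  | nil => unfold pt; norm_num
  | cons b w ih =>
    unfold pt
    have h1 : (if b then 1 else 0 : ℝ) ≤ 1 := by split_ifs <;> norm_num
    have h2 : pt q w / q ≤ 1 / 3 := by
      rw [div_le_iff₀ (by linarith)]
      linarith
    linarith

lemma sep_ctr {e : V} (he : ‖e‖ = 1) (i j : Bool) (hij : i ≠ j) :
    2 * (1 / 3 : ℝ) ≤ ‖ctr e i - ctr e j‖ := by
  unfold ctr
  cases i <;> cases j <;> simp_all [norm_smul] <;> norm_num

lemma in_ctr {e : V} (he : ‖e‖ = 1) (i : Bool) : ‖ctr e i‖ + (1 / 3 : ℝ) ≤ 1 := by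
  unfold ctr
  cases i
  · simp; norm_num
  · simp [norm_smul, he]; norm_num

/-- The condition on `K`. -/
def Kcond (n : ℕ) (K a b : ℝ) : Prop :=
  ((1 - b) / (1 - a) + 2 * |(b - a) / (1 - a)| * a⁻¹) ^ n ≤
      K * (b ^ (n - 1) * ((1 - b) / (1 - a)))

lemma exists_K (n : ℕ) : ∃ K : ℝ, 1 ≤ K ∧ Kcond n K (3 / 16) (3 / 4) ∧
    Kcond n K (1 / 16) (1 / 256) := by
  have h : ∀ a b : ℝ, 0 < a → a < 1 → 0 < b → b < 1 → ∃ K₀ : ℝ, ∀ K, K₀ ≤ K → Kcond n K a b := by
    intro a b ha ha1 hb hb1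
    have hpos : 0 < b ^ (n - 1) * ((1 - b) / (1 - a)) :=
      mul_pos (pow_pos hb _) (div_pos (by linarith) (by linarith))
    refine ⟨((1 - b) / (1 - a) + 2 * |(b - a) / (1 - a)| * a⁻¹) ^ n /
      (b ^ (n - 1) * ((1 - b) / (1 - a))), fun K hK => ?_⟩
    unfold Kcond
    exact (div_le_iff₀ hpos).1 hK
  obtain ⟨K₁, h₁⟩ := h (3 / 16) (3 / 4) (by norm_num) (by norm_num) (by norm_num) (by norm_num)
  obtain ⟨K₂, h₂⟩ := h (1 / 16) (1 / 256) (by norm_num) (by norm_num) (by norm_num) (by norm_num)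
  exact ⟨max 1 (max K₁ K₂), le_max_left _ _,
    h₁ _ ((le_max_left _ _).trans (le_max_right _ _)),
    h₂ _ ((le_max_right _ _).trans (le_max_right _ _))⟩

lemma good_gD (hn : 1 ≤ Module.finrank ℝ V) {e : V} (he : ‖e‖ = 1) (hK1 : 1 ≤ K)
    (hK : Kcond (Module.finrank ℝ V) K (3 / 16) (3 / 4)) :
    ∃ C : ℝ, 0 ≤ C ∧ ∀ k, Good K (C * (8 ^ k - 1)) (gD e k) := by
  set C1 : ℝ := |((3 / 4 : ℝ) - 3 / 16) / (1 - 3 / 16)| *
    ((3 / 16 : ℝ)⁻¹ ^ 2 + (3 / 16 : ℝ)⁻¹) with hC1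
  have hC0 : 0 ≤ C1 := by positivity
  refine ⟨C1, hC0, fun k => ?_⟩
  induction k with
  | zero =>
    have : C1 * (8 ^ 0 - 1) = 0 := by simp
    rw [this]
    exact good_zero hK1
  | succ k ih =>
    have h1 := good_ring hn (by norm_num) (by norm_num) (by norm_num) (by norm_num) hK hK1 ih
    have h8 : (1 : ℝ) ≤ 8 ^ k := one_le_pow₀ (by norm_num)
    have h2 : 0 ≤ C1 + 3 / 4 / (3 / 16) * (C1 * (8 ^ k - 1)) := by
      have : 0 ≤ C1 * (8 ^ k - 1) := mul_nonneg hC0 (by linarith)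
      positivity
    have h3 := good_multi (c := ctr e) (ρ := 1 / 3) hK1 h2 (by norm_num) (sep_ctr he)
      (in_ctr he) (fun _ => h1)
    refine h3.mono ?_
    have : 2 * (C1 + 3 / 4 / (3 / 16) * (C1 * (8 ^ k - 1))) = C1 * (8 * 8 ^ k - 6) := by ring
    rw [this, pow_succ]
    apply mul_le_mul_of_nonneg_left _ hC0
    linarith

lemma good_FD (hn : 1 ≤ Module.finrank ℝ V) (hK1 : 1 ≤ K)
    (hK : Kcond (Module.finrank ℝ V) K (1 / 16) (1 / 256)) :
    ∃ C : ℝ, 0 ≤ C ∧ ∀ (D : V → V) (L : ℝ), Good K L D → ∀ j, Good K (2 * C + L / 16 ^ j) (FD D j) := by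
  set C2 : ℝ := |((1 / 256 : ℝ) - 1 / 16) / (1 - 1 / 16)| *
    ((1 / 16 : ℝ)⁻¹ ^ 2 + (1 / 16 : ℝ)⁻¹) with hC2
  have hC0 : 0 ≤ C2 := by positivity
  refine ⟨C2, hC0, fun D L hD j => ?_⟩
  induction j with
  | zero =>
    refine Good.mono (L := L) hD ?_
    simp only [pow_zero, div_one]
    linarith
  | succ j ih =>
    have h1 := good_ring hn (by norm_num) (by norm_num) (by norm_num) (by norm_num) hK hK1 ih
    refine h1.mono (le_of_eq_of_le ?_ (le_refl (2 * C2 + L / 16 ^ (j + 1) - 7 / 8 * C2)) |>.trans ?_)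
    · rw [← hC2, pow_succ]
      field_simp
      ring
    · linarith

/-- The centres of the far balls. -/
noncomputable def X (e : V) (k : ℕ) : V := (2 / 3 * 16 ^ k : ℝ) • e

lemma sep_X {e : V} (he : ‖e‖ = 1) (i j : ℕ) (hij : i ≠ j) :
    2 * (1 : ℝ) ≤ ‖X e i - X e j‖ := by
  unfold X
  rw [← sub_smul, norm_smul, he, mul_one, Real.norm_eq_abs]
  have key : ∀ i j : ℕ, i < j → (15 : ℝ) ≤ 16 ^ j - 16 ^ i := by
    intro i j hij
    have h1 : (16 : ℝ) ^ (i + 1) ≤ 16 ^ j := pow_le_pow_right₀ (by norm_num) hij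
    have h2 : (1 : ℝ) ≤ 16 ^ i := one_le_pow₀ (by norm_num)
    rw [pow_succ] at h1
    linarith
  rcases lt_or_gt_of_ne hij with h | h
  · have := key _ _ h
    rw [abs_sub_comm, abs_of_nonneg (by linarith)]
    linarith
  · have := key _ _ h
    rw [abs_of_nonneg (by linarith)]
    linarith

lemma closed_X {e : V} (he : ‖e‖ = 1) : IsClosed (⋃ i, closedBall (X e i) 1) := by
  apply LocallyFinite.isClosed_iUnion _ (fun i => isClosed_closedBall)
  intro x
  refine ⟨ball x 1, ball_mem_nhds x one_pos, ?_⟩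
  obtain ⟨N, hN⟩ := pow_unbounded_of_one_lt (3 / 2 * (‖x‖ + 2)) (by norm_num : (1 : ℝ) < 16)
  refine (Set.finite_lt_nat N).subset ?_
  rintro k ⟨y, hy1, hy2⟩
  rw [mem_closedBall, dist_eq_norm] at hy1
  rw [mem_ball, dist_eq_norm] at hy2
  have h1 : ‖X e k‖ = 2 / 3 * 16 ^ k := by
    unfold X
    rw [norm_smul, he, mul_one, Real.norm_eq_abs, abs_of_pos (by positivity)]
  have h2 : ‖X e k‖ ≤ ‖x‖ + ‖y - x‖ + ‖y - X e k‖ := by
    calc ‖X e k‖ = ‖(x + (y - x)) - (y - X e k)‖ := by congr 1; abel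
      _ ≤ ‖x + (y - x)‖ + ‖y - X e k‖ := norm_sub_le _ _
      _ ≤ _ := add_le_add_left (norm_add_le x (y - x)) _
  show k < N
  by_contra hc
  push Not at hc
  have h3 : (16 : ℝ) ^ N ≤ 16 ^ k := pow_le_pow_right₀ (by norm_num) hc
  linarith

/-- The final map. -/
noncomputable def fmap (e : V) : V → V := fun x =>
  x + multi (X e) 1 (fun k => FD (gD e k) k) x

lemma exists_good (hn : 1 ≤ Module.finrank ℝ V) {e : V} (he : ‖e‖ = 1) :
    ∃ K L : ℝ, 1 ≤ K ∧ 0 ≤ L ∧ ∀ k, Good K L (FD (gD e k) k) := by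
  obtain ⟨K, hK1, hKa, hKb⟩ := exists_K (Module.finrank ℝ V)
  obtain ⟨C1, hC1, h1⟩ := good_gD hn he hK1 hKa
  obtain ⟨C2, hC2, h2⟩ := good_FD (V := V) hn hK1 hKb
  refine ⟨K, 2 * C2 + C1, hK1, by positivity, fun k => (h2 _ _ (h1 k) k).mono ?_⟩
  have h3 : C1 * (8 ^ k - 1) / 16 ^ k ≤ C1 := by
    rw [div_le_iff₀ (by positivity)]
    apply mul_le_mul_of_nonneg_left _ hC1
    have : (8 : ℝ) ^ k ≤ 16 ^ k := pow_le_pow_left₀ (by norm_num) (by norm_num) k
    linarith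
  linarith

lemma gD_pt (hn : 1 ≤ Module.finrank ℝ V) {e : V} (he : ‖e‖ = 1) (w : List Bool) :
    (2 / 3 * pt 16 w : ℝ) • e + gD e w.length ((2 / 3 * pt 16 w : ℝ) • e) =
      (2 / 3 * pt 4 w : ℝ) • e := by
  obtain ⟨K, hK1, hKa, hKb⟩ := exists_K (Module.finrank ℝ V)
  obtain ⟨C1, hC1, h1⟩ := good_gD hn he hK1 hKa
  induction w with
  | nil => simp [pt, gD]
  | cons b w ih =>
    have hw0 := pt_nonneg (q := 16) (by norm_num) w
    have hw1 := pt_le (q := 16) (by norm_num) w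
    have hc : ctr e b = ((2 / 3 * if b then 1 else 0 : ℝ)) • e := by
      unfold ctr
      cases b <;> simp
    have hx : (2 / 3 * pt 16 (b :: w) : ℝ) • e = ctr e b + (2 / 3 * (pt 16 w / 16) : ℝ) • e := by
      rw [hc, ← add_smul]
      congr 1
      show 2 / 3 * ((if b then 1 else 0) + pt 16 w / 16) = _
      ring
    have hball : ‖(2 / 3 * pt 16 (b :: w) : ℝ) • e - ctr e b‖ < 1 / 3 := by
      rw [hx, add_sub_cancel_left, norm_smul, he, mul_one, Real.norm_eq_abs,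
        abs_of_nonneg (by positivity)]
      linarith
    show _ + multi (ctr e) (1 / 3) (fun _ => ringD (3 / 16) (3 / 4) (gD e w.length)) _ = _
    rw [multi_in_form (by norm_num) (sep_ctr he) hball, hx, add_sub_cancel_left]
    have hy : (1 / 3 : ℝ)⁻¹ • (2 / 3 * (pt 16 w / 16) : ℝ) • e =
        (3 / 16 : ℝ) • ((2 / 3 * pt 16 w : ℝ) • e) := by
      rw [smul_smul, smul_smul]
      congr 1
      ring
    rw [hy, ring_in (by norm_num) (by norm_num) (by
      rw [norm_smul, norm_smul, he, mul_one, Real.norm_eq_abs, Real.norm_eq_abs,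
        abs_of_pos (by norm_num), abs_of_nonneg (by positivity)]
      linarith), inv_smul_smul₀ (by norm_num), ih, hc, smul_smul, smul_smul, ← add_smul]
    congr 1
    show _ = 2 / 3 * ((if b then 1 else 0) + pt 4 w / 4)
    ring

lemma FD_in (D : V → V) (j : ℕ) : ∀ x : V, ‖x‖ ≤ (16 ^ j : ℝ)⁻¹ →
    x + FD D j x = (256 ^ j : ℝ)⁻¹ • ((16 ^ j : ℝ) • x + D ((16 ^ j : ℝ) • x)) := by
  induction j with
  | zero => intro x _; simp [FD]
  | succ j ih =>
    intro x hx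
    have h1 : ‖x‖ ≤ 1 / 16 := by
      refine hx.trans ?_
      rw [pow_succ, mul_inv]
      have : ((16 : ℝ) ^ j)⁻¹ ≤ 1 := inv_le_one_of_one_le₀ (one_le_pow₀ (by norm_num))
      linarith
    show x + ringD (1 / 16) (1 / 256) (FD D j) x = _
    rw [ring_in (by norm_num) (by norm_num) h1, ih, smul_smul, smul_smul]
    · congr 1
      · rw [pow_succ, mul_inv]; ring
      · congr 2
        · rw [pow_succ]; norm_num
        · rw [pow_succ]; norm_num
    · rw [norm_smul, Real.norm_eq_abs, abs_of_pos (by norm_num)]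
      rw [pow_succ, mul_inv] at hx
      have : (1 / 16 : ℝ)⁻¹ = 16 := by norm_num
      rw [this]
      linarith

lemma fmap_pt (hn : 1 ≤ Module.finrank ℝ V) {e : V} (he : ‖e‖ = 1) (w : List Bool) :
    fmap e ((2 / 3 * (16 ^ w.length + (16 ^ w.length)⁻¹ * pt 16 w) : ℝ) • e) =
      (2 / 3 * (16 ^ w.length + (256 ^ w.length)⁻¹ * pt 4 w) : ℝ) • e := by
  have hw0 := pt_nonneg (q := 16) (by norm_num) w
  have hw1 := pt_le (q := 16) (by norm_num) w
  set k := w.length with hk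
  have hx : (2 / 3 * (16 ^ k + (16 ^ k)⁻¹ * pt 16 w) : ℝ) • e =
      X e k + (16 ^ k : ℝ)⁻¹ • ((2 / 3 * pt 16 w : ℝ) • e) := by
    unfold X
    rw [smul_smul, ← add_smul]
    congr 1
    ring
  have hz : ‖(16 ^ k : ℝ)⁻¹ • ((2 / 3 * pt 16 w : ℝ) • e)‖ ≤ (16 ^ k : ℝ)⁻¹ * (8 / 9) := by
    rw [norm_smul, norm_smul, he, mul_one, Real.norm_eq_abs, Real.norm_eq_abs,
      abs_of_nonneg (by positivity), abs_of_nonneg (by positivity)]
    apply mul_le_mul_of_nonneg_left _ (by positivity)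
    linarith
  have h16 : (16 ^ k : ℝ)⁻¹ ≤ 1 := inv_le_one_of_one_le₀ (one_le_pow₀ (by norm_num))
  have h16' : 0 < (16 ^ k : ℝ)⁻¹ := by positivity
  have hball : ‖(2 / 3 * (16 ^ k + (16 ^ k)⁻¹ * pt 16 w) : ℝ) • e - X e k‖ < 1 := by
    rw [hx, add_sub_cancel_left]
    linarith
  unfold fmap
  rw [multi_in_form one_pos (sep_X he) hball, hx, add_sub_cancel_left, inv_one, one_smul,
    one_smul, FD_in _ _ _ (by linarith), smul_inv_smul₀ (by positivity), gD_pt hn he w]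
  unfold X
  rw [smul_smul, ← add_smul]
  congr 1
  ring

end Pool.Agent.R219.LQ
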