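import Pool.Agent.R219.LQ.Construct

open Set Metric Filter Topology MeasureTheory
open scoped RealInnerProductSpace ENNReal

namespace Pool.Agent.R219.LQ

set_option linter.unusedSectionVars false
set_option linter.unusedVariables false

/-- The least number of sets of diameter at most `r` needed to cover `A`. -/
noncomputable def coverNum {V : Type*} [PseudoEMetricSpace V] (r : ℝ) (A : Set V) : ℕ∞ :=
  ⨅ (t : Set (Set V)) (_ : A ⊆ ⋃₀ t) (_ : ∀ s ∈ t, Metric.ediam s ≤ ENNReal.ofReal r), t.encard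

/-- The Assouad dimension. -/
noncomputable def dimA {V : Type*} [PseudoMetricSpace V] (E : Set V) : ℝ≥0∞ :=
  sInf {α | ∃ a : ℝ, 0 ≤ a ∧ α = ENNReal.ofReal a ∧ ∃ C : ℝ, 0 < C ∧
    ∀ x ∈ E, ∀ r R : ℝ, 0 < r → r < R →
      ((coverNum r (ball x R ∩ E) : ℕ∞) : ℝ≥0∞) ≤ ENNReal.ofReal (C * (R / r) ^ a)}

section lower

variable {V : Type*} [PseudoMetricSpace V]

lemma le_coverNum {r : ℝ} (hr : 0 ≤ r) {A : Set V} (S : Finset V) (hS : ↑S ⊆ A)
    (hsep : ∀ x ∈ S, ∀ y ∈ S, x ≠ y → r < dist x y) : (S.card : ℕ∞) ≤ coverNum r A := by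
  unfold coverNum
  refine le_iInf fun t => le_iInf fun ht => le_iInf fun hd => ?_
  have h1 : ∀ x : V, ∃ s : Set V, x ∈ S → (s ∈ t ∧ x ∈ s) := by
    intro x
    by_cases hx : x ∈ S
    · obtain ⟨s, hs, hxs⟩ := ht (hS hx)
      exact ⟨s, fun _ => ⟨hs, hxs⟩⟩
    · exact ⟨∅, fun h => absurd h hx⟩
  choose φ hφ using h1
  have h2 : (S : Set V).encard ≤ t.encard := by
    apply Set.encard_le_encard_of_injOn (f := φ)
    · intro x hx; exact (hφ x hx).1
    · intro x hx y hy hxy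
      by_contra hne
      have h3 := hsep x hx y hy hne
      have h4 := Metric.edist_le_ediam_of_mem (hφ x hx).2 (by rw [hxy]; exact (hφ y hy).2)
      have h5 := h4.trans (hd _ (hφ x hx).1)
      rw [edist_dist, ENNReal.ofReal_le_ofReal_iff'] at h5
      rcases h5 with h5 | h5 <;> linarith
  rwa [Set.encard_coe_eq_coe_finsetCard] at h2

lemma coverNum_le {ι : Type*} {r : ℝ} {A : Set V} (P : Finset ι) (cell : ι → Set V)
    (hA : ∀ x ∈ A, ∃ i ∈ P, x ∈ cell i)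
    (hd : ∀ i ∈ P, ∀ x ∈ cell i, ∀ y ∈ cell i, dist x y ≤ r) : coverNum r A ≤ P.card := by
  unfold coverNum
  refine (iInf_le _ (cell '' (P : Set ι))).trans ((iInf_le _ ?_).trans ((iInf_le _ ?_).trans ?_))
  · intro x hx
    obtain ⟨i, hi, hxi⟩ := hA x hx
    exact ⟨cell i, ⟨i, hi, rfl⟩, hxi⟩
  · rintro s ⟨i, hi, rfl⟩
    apply Metric.ediam_le
    intro x hx y hy
    rw [edist_dist]
    exact ENNReal.ofReal_le_ofReal (hd i hi x hx y hy)
  · refine (Set.encard_image_le _ _).trans ?_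
    rw [Set.encard_coe_eq_coe_finsetCard]

end lower

lemma pt_sep : ∀ w w' : List Bool, w.length = w'.length → w ≠ w' →
    ((4 : ℝ) ^ w.length)⁻¹ ≤ |pt 4 w - pt 4 w'| := by
  intro w
  induction w with
  | nil =>
    intro w' hl hne
    exact absurd (List.length_eq_zero_iff.1 hl.symm).symm hne
  | cons b w ih =>
    intro w' hl hne
    cases w' with
    | nil => simp at hl
    | cons b' w' =>
      have hl' : w.length = w'.length := by simpa using hl
      have h0 := pt_nonneg (q := 4) (by norm_num) w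
      have h1 := pt_le (q := 4) (by norm_num) w
      have h0' := pt_nonneg (q := 4) (by norm_num) w'
      have h1' := pt_le (q := 4) (by norm_num) w'
      have hpow : ((4 : ℝ) ^ w.length)⁻¹ ≤ 1 := inv_le_one_of_one_le₀ (one_le_pow₀ (by norm_num))
      have hlen : ((4 : ℝ) ^ (b :: w).length)⁻¹ = ((4 : ℝ) ^ w.length)⁻¹ / 4 := by
        rw [List.length_cons, pow_succ, mul_inv]; ring
      rw [hlen]
      by_cases hb : b = b'
      · subst hb
        have hw : w ≠ w' := fun h => hne (by rw [h])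
        have h2 := ih w' hl' hw
        have e : pt 4 (b :: w) - pt 4 (b :: w') = (pt 4 w - pt 4 w') / 4 := by
          show ((if b then 1 else 0) + pt 4 w / 4) - ((if b then 1 else 0) + pt 4 w' / 4) = _
          ring
        rw [e, abs_div, abs_of_pos (by norm_num : (0 : ℝ) < 4)]
        linarith
      · have e : pt 4 (b :: w) - pt 4 (b' :: w') =
            ((if b then 1 else 0) - (if b' then 1 else 0)) + (pt 4 w - pt 4 w') / 4 := by
          show ((if b then 1 else 0) + pt 4 w / 4) - ((if b' then 1 else 0) + pt 4 w' / 4) = _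
          ring
        rw [e]
        cases b <;> cases b' <;> simp at hb ⊢
        · rw [abs_of_nonpos (by linarith)]
          linarith
        · rw [abs_of_nonneg (by linarith)]
          linarith

section dims

variable {V : Type*} [NormedAddCommGroup V] [InnerProductSpace ℝ V] [FiniteDimensional ℝ V]
  [MeasurableSpace V] [BorelSpace V]

/-- The set. -/
def Eset (e : V) : Set V :=
  {x | ∃ w : List Bool, x = (2 / 3 * (16 ^ w.length + (16 ^ w.length)⁻¹ * pt 16 w) : ℝ) • e}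

lemma exp_ge {a C : ℝ} (ha : 0 ≤ a) (hC : 0 < C)
    (h : ∀ k : ℕ, (2 : ℝ) ^ k ≤ C * (6 * 4 ^ k) ^ a) : 1 / 2 ≤ a := by
  by_contra hc
  push Not at hc
  have h4 : (4 : ℝ) ^ a < 2 := by
    calc (4 : ℝ) ^ a < 4 ^ (1 / 2 : ℝ) := Real.rpow_lt_rpow_of_exponent_lt (by norm_num) hc
      _ = 2 := by
        rw [show (4 : ℝ) = 2 ^ (2 : ℝ) by norm_num, ← Real.rpow_mul (by norm_num)]
        norm_num
  have h4' : 0 < (4 : ℝ) ^ a := by positivity
  obtain ⟨k, hk⟩ := exists_pow_lt_of_lt_one (y := (4 : ℝ) ^ a / 2) (x := (C * 6 ^ a)⁻¹)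
    (by positivity) (by linarith)
  have h1 := h k
  have h2 : (6 * (4 : ℝ) ^ k) ^ a = 6 ^ a * ((4 : ℝ) ^ a) ^ k := by
    rw [Real.mul_rpow (by norm_num) (by positivity)]
    congr 1
    rw [← Real.rpow_natCast, ← Real.rpow_natCast, ← Real.rpow_mul (by norm_num),
      ← Real.rpow_mul (by norm_num), mul_comm]
  rw [h2] at h1
  have h3 : ((4 : ℝ) ^ a / 2) ^ k * (C * 6 ^ a) < 1 := by
    calc _ < (C * 6 ^ a)⁻¹ * (C * 6 ^ a) := mul_lt_mul_of_pos_right hk (by positivity)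
      _ = 1 := inv_mul_cancel₀ (by positivity)
  rw [div_pow] at h3
  have h5 : ((4 : ℝ) ^ a) ^ k / 2 ^ k * (C * 6 ^ a) = (C * (6 ^ a * ((4 : ℝ) ^ a) ^ k)) / 2 ^ k := by
    ring
  rw [h5, div_lt_one (by positivity)] at h3
  linarith

lemma dimA_image_ge (hn : 1 ≤ Module.finrank ℝ V) {e : V} (he : ‖e‖ = 1) :
    ENNReal.ofReal (1 / 2) ≤ dimA (fmap e '' Eset e) := by
  unfold dimA
  apply le_sInf
  rintro α ⟨a, ha, rfl, C, hC, h⟩
  apply ENNReal.ofReal_le_ofReal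
  apply exp_ge ha hC
  intro k
  classical
  -- the points
  let p : (Fin k → Bool) → V := fun u =>
    (2 / 3 * (16 ^ k + (256 ^ k)⁻¹ * pt 4 (List.ofFn u)) : ℝ) • e
  have hp : ∀ u, p u ∈ fmap e '' Eset e := by
    intro u
    refine ⟨_, ⟨List.ofFn u, rfl⟩, ?_⟩
    rw [fmap_pt hn he]
    simp only [List.length_ofFn]
    rfl
  have hdist : ∀ u v, dist (p u) (p v) =
      2 / 3 * (256 ^ k : ℝ)⁻¹ * |pt 4 (List.ofFn u) - pt 4 (List.ofFn v)| := by
    intro u v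
    rw [dist_eq_norm, ← sub_smul, norm_smul, he, mul_one, Real.norm_eq_abs]
    have : (2 / 3 * (16 ^ k + (256 ^ k)⁻¹ * pt 4 (List.ofFn u)) -
        2 / 3 * (16 ^ k + (256 ^ k)⁻¹ * pt 4 (List.ofFn v)) : ℝ) =
        (2 / 3 * (256 ^ k : ℝ)⁻¹) * (pt 4 (List.ofFn u) - pt 4 (List.ofFn v)) := by ring
    rw [this, abs_mul, abs_of_pos (by positivity)]
  have hb0 : 0 < ((256 : ℝ) ^ k)⁻¹ := by positivity
  have h40 : 0 < ((4 : ℝ) ^ k)⁻¹ := by positivity
  have h41 : ((4 : ℝ) ^ k)⁻¹ ≤ 1 := inv_le_one_of_one_le₀ (one_le_pow₀ (by norm_num))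
  have hsep : ∀ u v, u ≠ v → 1 / 3 * ((256 : ℝ) ^ k)⁻¹ * ((4 : ℝ) ^ k)⁻¹ < dist (p u) (p v) := by
    intro u v huv
    rw [hdist]
    have h1 := pt_sep (List.ofFn u) (List.ofFn v) (by simp)
      (fun h => huv (List.ofFn_injective h))
    rw [List.length_ofFn] at h1
    have h2 := mul_le_mul_of_nonneg_left h1 (by positivity : 0 ≤ 2 / 3 * ((256 : ℝ) ^ k)⁻¹)
    have h3 : 0 < ((256 : ℝ) ^ k)⁻¹ * ((4 : ℝ) ^ k)⁻¹ := by positivity
    linarith
  have hinj : Function.Injective p := by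
    intro u v huv
    by_contra hne
    have := hsep u v hne
    rw [huv, dist_self] at this
    have h3 : 0 < 1 / 3 * ((256 : ℝ) ^ k)⁻¹ * ((4 : ℝ) ^ k)⁻¹ := by positivity
    linarith
  have h1 := h (p fun _ => false) (hp _) (1 / 3 * ((256 : ℝ) ^ k)⁻¹ * ((4 : ℝ) ^ k)⁻¹)
    (2 * ((256 : ℝ) ^ k)⁻¹) (by positivity) (by nlinarith)
  have h2 : ((Finset.univ.image p).card : ℕ∞) ≤
      coverNum (1 / 3 * ((256 : ℝ) ^ k)⁻¹ * ((4 : ℝ) ^ k)⁻¹)
        (ball (p fun _ => false) (2 * ((256 : ℝ) ^ k)⁻¹) ∩ fmap e '' Eset e) := by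
    apply le_coverNum (by positivity)
    · intro x hx
      rw [Finset.mem_coe, Finset.mem_image] at hx
      obtain ⟨u, -, rfl⟩ := hx
      refine ⟨?_, hp u⟩
      rw [mem_ball, hdist]
      have a1 := pt_nonneg (q := 4) (by norm_num) (List.ofFn u)
      have a2 := pt_le (q := 4) (by norm_num) (List.ofFn u)
      have a3 := pt_nonneg (q := 4) (by norm_num) (List.ofFn fun _ : Fin k => false)
      have a4 := pt_le (q := 4) (by norm_num) (List.ofFn fun _ : Fin k => false)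
      have a5 : |pt 4 (List.ofFn u) - pt 4 (List.ofFn fun _ : Fin k => false)| ≤ 4 / 3 := by
        rw [abs_le]; constructor <;> linarith
      have := mul_le_mul_of_nonneg_left a5 (by positivity : 0 ≤ 2 / 3 * ((256 : ℝ) ^ k)⁻¹)
      linarith
    · intro x hx y hy hxy
      rw [Finset.mem_image] at hx hy
      obtain ⟨u, -, rfl⟩ := hx
      obtain ⟨v, -, rfl⟩ := hy
      exact hsep u v (fun h => hxy (by rw [h]))
  rw [Finset.card_image_of_injective _ hinj, Finset.card_univ] at h2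
  simp only [Fintype.card_fun, Fintype.card_bool, Fintype.card_fin] at h2
  have h3 : ((2 ^ k : ℕ) : ℝ≥0∞) ≤ ENNReal.ofReal
      (C * (2 * ((256 : ℝ) ^ k)⁻¹ / (1 / 3 * ((256 : ℝ) ^ k)⁻¹ * ((4 : ℝ) ^ k)⁻¹)) ^ a) := by
    refine le_trans ?_ h1
    exact_mod_cast h2
  have h4 : 2 * ((256 : ℝ) ^ k)⁻¹ / (1 / 3 * ((256 : ℝ) ^ k)⁻¹ * ((4 : ℝ) ^ k)⁻¹) = 6 * 4 ^ k := by
    field_simp
    norm_num
  rw [h4, ← ENNReal.ofReal_natCast, ENNReal.ofReal_le_ofReal_iff (by positivity)] at h3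
  exact_mod_cast h3

/-! ### The upper bound -/

/-- All digits in base sixteen are zero or one. -/
def Dig (x : ℝ) : Prop :=
  0 ≤ x ∧ ∀ j : ℤ, ⌊x * 16 ^ j⌋ % 16 = 0 ∨ ⌊x * 16 ^ j⌋ % 16 = 1

lemma Dig.shift {x : ℝ} (h : Dig x) (m : ℤ) : Dig (x * 16 ^ m) := by
  refine ⟨mul_nonneg h.1 (by positivity), fun j => ?_⟩
  have := h.2 (m + j)
  rwa [zpow_add₀ (by norm_num), ← mul_assoc] at this

lemma Dig.one_add {x : ℝ} (h : Dig x) (hx : x < 1) : Dig (1 + x) := by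
  have h0 := h.1
  refine ⟨by linarith, fun j => ?_⟩
  rcases lt_trichotomy j 0 with hj | hj | hj
  · left
    have h1 : (16 : ℝ) ^ j ≤ 16 ^ (-1 : ℤ) := zpow_le_zpow_right₀ (by norm_num) (by omega)
    have h2 : (0 : ℝ) < 16 ^ j := by positivity
    have : ⌊(1 + x) * 16 ^ j⌋ = 0 := by
      rw [Int.floor_eq_zero_iff]
      refine ⟨by positivity, ?_⟩
      have h3 : (16 : ℝ) ^ (-1 : ℤ) = 1 / 16 := by norm_num
      rw [h3] at h1
      have h4 := mul_le_mul_of_nonneg_left h1 (by linarith : 0 ≤ 1 + x)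
      linarith
    rw [this]
    rfl
  · right
    subst hj
    have h2 : ⌊x⌋ = 0 := Int.floor_eq_zero_iff.2 ⟨h0, hx⟩
    rw [zpow_zero, mul_one, add_comm, Int.floor_add_one, h2]
    rfl
  · obtain ⟨n, rfl⟩ : ∃ n : ℕ, j = n + 1 := ⟨(j - 1).toNat, by omega⟩
    have e : (1 + x) * (16 : ℝ) ^ ((n : ℤ) + 1) = x * 16 ^ ((n : ℤ) + 1) + ((16 ^ (n + 1) : ℤ) : ℝ) := by
      push_cast
      rw [add_mul, one_mul, add_comm]
      congr 1
    rw [e, Int.floor_add_intCast]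
    have h2 := h.2 ((n : ℤ) + 1)
    have h3 : (16 : ℤ) ^ (n + 1) = 16 * 16 ^ n := by rw [pow_succ]; ring
    rw [h3, Int.add_mul_emod_self_left]
    exact h2

lemma Dig_zero : Dig 0 := ⟨le_rfl, fun j => by left; simp⟩

lemma Dig_pt (w : List Bool) : Dig (pt 16 w) := by
  induction w with
  | nil => exact Dig_zero
  | cons b w ih =>
    have h1 := ih.shift (-1)
    have e : pt 16 w * (16 : ℝ) ^ (-1 : ℤ) = pt 16 w / 16 := by
      rw [zpow_neg_one]; rfl
    rw [e] at h1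
    have h2 := pt_le (q := 16) (by norm_num) w
    cases b with
    | false =>
      have : pt 16 (false :: w) = pt 16 w / 16 := by
        show (0 : ℝ) + pt 16 w / 16 = _
        rw [zero_add]
      rw [this]
      exact h1
    | true =>
      have : pt 16 (true :: w) = 1 + pt 16 w / 16 := rfl
      rw [this]
      exact h1.one_add (by linarith)

lemma Dig_E (w : List Bool) : Dig (16 ^ w.length + (16 ^ w.length)⁻¹ * pt 16 w) := by
  have h1 := (Dig_pt w).shift (-(2 * w.length : ℕ))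
  have h2 : pt 16 w * (16 : ℝ) ^ (-((2 * w.length : ℕ) : ℤ)) < 1 := by
    rw [zpow_neg, zpow_natCast]
    cases w with
    | nil => simp [pt]
    | cons b w =>
      have h3 := pt_le (q := 16) (by norm_num) (b :: w)
      have h4 : (16 : ℝ) ^ 2 ≤ 16 ^ (2 * (b :: w).length) :=
        pow_le_pow_right₀ (by norm_num) (by simp)
      rw [← div_eq_mul_inv, div_lt_one (by positivity)]
      linarith
  have h3 := (h1.one_add h2).shift (w.length : ℤ)
  convert h3 using 1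
  rw [zpow_neg, zpow_natCast, zpow_natCast, pow_mul, add_mul, one_mul]
  congr 1
  have : (16 : ℝ) ^ w.length ≠ 0 := by positivity
  rw [pow_right_comm]
  field_simp

lemma Dig.frac {x : ℝ} (h : Dig x) : x < ⌊x⌋ + 1 / 8 := by
  have h1 := h.2 1
  rw [zpow_one] at h1
  have h2 := Int.lt_floor_add_one (x * 16)
  have h3 := Int.floor_le x
  have h4 : 16 * ⌊x⌋ ≤ ⌊x * 16⌋ := by
    apply Int.le_floor.2
    push_cast
    linarith
  have h5 : ⌊x * 16⌋ < 16 * ⌊x⌋ + 16 := by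
    apply Int.floor_lt.2
    push_cast
    have := Int.lt_floor_add_one x
    linarith
  have h6 : ⌊x * 16⌋ ≤ 16 * ⌊x⌋ + 1 := by omega
  have h7 : ((⌊x * 16⌋ : ℤ) : ℝ) ≤ 16 * ⌊x⌋ + 1 := by exact_mod_cast h6
  linarith

lemma Dig.step {x : ℝ} (h : Dig x) : ⌊x * 16⌋ = 16 * ⌊x⌋ ∨ ⌊x * 16⌋ = 16 * ⌊x⌋ + 1 := by
  have h1 := h.2 1
  rw [zpow_one] at h1
  have h3 := Int.floor_le x
  have h4 : 16 * ⌊x⌋ ≤ ⌊x * 16⌋ := by
    apply Int.le_floor.2
    push_cast
    linarith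
  have h5 : ⌊x * 16⌋ < 16 * ⌊x⌋ + 16 := by
    apply Int.floor_lt.2
    push_cast
    have := Int.lt_floor_add_one x
    linarith
  omega

lemma Dig.eq_of_near {x y : ℝ} (hx : Dig x) (hy : Dig y) (h : |x - y| < 1 / 2) : ⌊x⌋ = ⌊y⌋ := by
  have key : ∀ x y : ℝ, Dig x → Dig y → |x - y| < 1 / 2 → ¬ ⌊x⌋ < ⌊y⌋ := by
    intro x y hx hy h hlt
    have h1 := hx.frac
    have h2 := Int.floor_le y
    have h3 : ((⌊x⌋ : ℤ) : ℝ) + 1 ≤ ⌊y⌋ := by exact_mod_cast hlt
    rw [abs_lt] at h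
    linarith
  have h1 := key x y hx hy h
  have h2 := key y x hy hx (by rwa [abs_sub_comm])
  omega

/-- The possible values of the integer part after `i` more digits. -/
def PP (m : ℤ) : ℕ → Finset ℤ
  | 0 => {m}
  | i + 1 => (PP m i).image (fun u => 16 * u) ∪ (PP m i).image (fun u => 16 * u + 1)

lemma PP_card (m : ℤ) (i : ℕ) : (PP m i).card ≤ 2 ^ i := by
  induction i with
  | zero => simp [PP]
  | succ i ih =>
    unfold PP
    refine (Finset.card_union_le _ _).trans ?_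
    have h1 := Finset.card_image_le (s := PP m i) (f := fun u => 16 * u)
    have h2 := Finset.card_image_le (s := PP m i) (f := fun u => 16 * u + 1)
    rw [pow_succ]
    omega

lemma mem_PP {x : ℝ} (hx : Dig x) (i : ℕ) : ⌊x * 16 ^ i⌋ ∈ PP ⌊x⌋ i := by
  induction i with
  | zero => simp [PP]
  | succ i ih =>
    unfold PP
    rw [Finset.mem_union, Finset.mem_image, Finset.mem_image]
    have h1 := hx.shift (i : ℤ)
    rw [zpow_natCast] at h1
    rw [pow_succ, ← mul_assoc]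
    rcases h1.step with h | h
    · left; exact ⟨_, ih, h.symm⟩
    · right; exact ⟨_, ih, h.symm⟩

lemma dimA_le {e : V} (he : ‖e‖ = 1) : dimA (Eset e) ≤ ENNReal.ofReal (1 / 4) := by
  unfold dimA
  apply sInf_le
  refine ⟨1 / 4, by norm_num, rfl, 768 ^ (1 / 4 : ℝ), by positivity, ?_⟩
  rintro x ⟨w, rfl⟩ r R hr hrR
  set x₀ : ℝ := 16 ^ w.length + (16 ^ w.length)⁻¹ * pt 16 w with hx₀
  have hDx : Dig x₀ := Dig_E w
  obtain ⟨l, hl1, hl2⟩ := exists_mem_Ico_zpow (x := 3 * R) (y := (16 : ℝ)) (by linarith) (by norm_num)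
  obtain ⟨j, hj1, hj2⟩ := exists_mem_Ico_zpow (x := r) (y := (16 : ℝ)) hr (by norm_num)
  have hjl : j < l + 1 := by
    by_contra hc
    push Not at hc
    have := zpow_le_zpow_right₀ (by norm_num : (1 : ℝ) ≤ 16) hc
    linarith
  obtain ⟨N, hN⟩ : ∃ N : ℕ, l + 1 = j + N := ⟨(l + 1 - j).toNat, by omega⟩
  have h16l : (0 : ℝ) < 16 ^ (l + 1) := by positivity
  have hR : 0 < R := hr.trans hrR
  have h16j : (0 : ℝ) < 16 ^ j := by positivity
  have hmain : coverNum r (ball ((2 / 3 * x₀) • e) R ∩ Eset e) ≤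
      ((PP ⌊x₀ * 16 ^ (-(l + 1))⌋ N).card : ℕ∞) := by
    apply coverNum_le (PP ⌊x₀ * 16 ^ (-(l + 1))⌋ N)
      (fun m => {y : V | ∃ t : ℝ, y = (2 / 3 * t) • e ∧ ⌊t * 16 ^ (-j)⌋ = m})
    · rintro y ⟨hy, w', rfl⟩
      set y₀ : ℝ := 16 ^ w'.length + (16 ^ w'.length)⁻¹ * pt 16 w' with hy₀
      have hDy : Dig y₀ := Dig_E w'
      rw [mem_ball, dist_eq_norm, ← sub_smul, norm_smul, he, mul_one, Real.norm_eq_abs,
        ← mul_sub, abs_mul, abs_of_pos (by norm_num : (0 : ℝ) < 2 / 3)] at hy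
      have h1 : |x₀ * 16 ^ (-(l + 1)) - y₀ * 16 ^ (-(l + 1))| < 1 / 2 := by
        rw [← sub_mul, abs_mul, abs_of_pos (by positivity : (0 : ℝ) < 16 ^ (-(l + 1))),
          zpow_neg, ← div_eq_mul_inv, div_lt_iff₀ h16l, abs_sub_comm]
        linarith
      have h2 := (hDx.shift (-(l + 1))).eq_of_near (hDy.shift (-(l + 1))) h1
      refine ⟨⌊y₀ * 16 ^ (-j)⌋, ?_, y₀, rfl, rfl⟩
      rw [h2]
      have h3 := mem_PP (hDy.shift (-(l + 1))) N
      have e1 : y₀ * 16 ^ (-(l + 1)) * (16 : ℝ) ^ N = y₀ * 16 ^ (-j) := by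
        rw [mul_assoc, ← zpow_natCast, ← zpow_add₀ (by norm_num)]
        congr 2
        omega
      rwa [e1] at h3
    · rintro m - y ⟨t, rfl, ht⟩ z ⟨t', rfl, ht'⟩
      rw [dist_eq_norm, ← sub_smul, norm_smul, he, mul_one, Real.norm_eq_abs,
        ← mul_sub, abs_mul, abs_of_pos (by norm_num : (0 : ℝ) < 2 / 3)]
      have h1 := Int.floor_le (t * 16 ^ (-j))
      have h2 := Int.lt_floor_add_one (t * 16 ^ (-j))
      have h3 := Int.floor_le (t' * 16 ^ (-j))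
      have h4 := Int.lt_floor_add_one (t' * 16 ^ (-j))
      rw [ht] at h1 h2
      rw [ht'] at h3 h4
      have h5 : |t - t'| ≤ 16 ^ j := by
        have : |t * 16 ^ (-j) - t' * 16 ^ (-j)| ≤ 1 := by
          rw [abs_le]; constructor <;> linarith
        rwa [← sub_mul, abs_mul, abs_of_pos (by positivity : (0 : ℝ) < 16 ^ (-j)),
          zpow_neg, ← div_eq_mul_inv, div_le_one h16j] at this
      linarith
  have hcard := PP_card ⌊x₀ * 16 ^ (-(l + 1))⌋ N
  have h2N : (2 : ℝ) ^ N ≤ 768 ^ (1 / 4 : ℝ) * (R / r) ^ (1 / 4 : ℝ) := by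
    rw [← Real.mul_rpow (by norm_num) (by positivity)]
    have e1 : (2 : ℝ) ^ N = ((16 : ℝ) ^ N) ^ (1 / 4 : ℝ) := by
      rw [show (16 : ℝ) = 2 ^ 4 by norm_num, ← pow_mul, mul_comm, pow_mul,
        ← Real.rpow_natCast (((2 : ℝ) ^ N)) 4, ← Real.rpow_mul (by positivity)]
      norm_num
    rw [e1]
    apply Real.rpow_le_rpow (by positivity) _ (by norm_num)
    have e2 : (16 : ℝ) ^ N * 16 ^ j = 16 ^ l * 16 := by
      rw [← zpow_natCast, ← zpow_add₀ (by norm_num), add_comm, ← hN, zpow_add_one₀ (by norm_num)]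
    have e3 : (16 : ℝ) ^ (j + 1) = 16 ^ j * 16 := zpow_add_one₀ (by norm_num) _
    rw [e3] at hj2
    rw [mul_div_assoc', le_div_iff₀ hr]
    have h16N : (0 : ℝ) < 16 ^ N := by positivity
    calc (16 : ℝ) ^ N * r ≤ 16 ^ N * (16 ^ j * 16) := mul_le_mul_of_nonneg_left hj2.le h16N.le
      _ = (16 ^ l * 16) * 16 := by rw [← e2]; ring
      _ ≤ 768 * R := by linarith
  calc ((coverNum r (ball ((2 / 3 * x₀) • e) R ∩ Eset e) : ℕ∞) : ℝ≥0∞)
      ≤ (((PP ⌊x₀ * 16 ^ (-(l + 1))⌋ N).card : ℕ∞) : ℝ≥0∞) := by exact_mod_cast hmain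
    _ ≤ ((2 ^ N : ℕ) : ℝ≥0∞) := by
        have : (((PP ⌊x₀ * 16 ^ (-(l + 1))⌋ N).card : ℕ) : ℝ≥0∞) ≤ ((2 ^ N : ℕ) : ℝ≥0∞) := by
          exact_mod_cast hcard
        exact_mod_cast this
    _ ≤ ENNReal.ofReal (768 ^ (1 / 4 : ℝ) * (R / r) ^ (1 / 4 : ℝ)) := by
        rw [← ENNReal.ofReal_natCast]
        apply ENNReal.ofReal_le_ofReal
        push_cast
        exact h2N

end dims

end Pool.Agent.R219.LQ
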