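import Pool.Agent.R219.LQ.Dim

open Set Metric Filter Topology MeasureTheory
open scoped RealInnerProductSpace ENNReal NNReal ContDiff

namespace Pool.Agent.R219.LQ

set_option linter.unusedSectionVars false
set_option linter.unusedVariables false

/-- `G` is a weak differential of `f`. -/
def HasWeakDeriv {n : ℕ} (f : EuclideanSpace ℝ (Fin n) → EuclideanSpace ℝ (Fin n))
    (G : EuclideanSpace ℝ (Fin n) → EuclideanSpace ℝ (Fin n) →L[ℝ] EuclideanSpace ℝ (Fin n)) :
    Prop :=
  ∀ φ : EuclideanSpace ℝ (Fin n) → ℝ, ContDiff ℝ ∞ φ → HasCompactSupport φ →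
    ∀ v : EuclideanSpace ℝ (Fin n), ∫ x, φ x • G x v = - ∫ x, (fderiv ℝ φ x v) • f x

/-- Quasiconformal maps, analytic definition. -/
def IsQuasiconformal {n : ℕ} (f : EuclideanSpace ℝ (Fin n) → EuclideanSpace ℝ (Fin n)) : Prop :=
  IsHomeomorph f ∧
  ∃ G : EuclideanSpace ℝ (Fin n) → EuclideanSpace ℝ (Fin n) →L[ℝ] EuclideanSpace ℝ (Fin n),
    AEStronglyMeasurable G ∧ HasWeakDeriv f G ∧
    LocallyIntegrable (fun x => ‖f x‖ ^ n) ∧ LocallyIntegrable (fun x => ‖G x‖ ^ n) ∧
    ∃ K : ℝ, 1 ≤ K ∧ ∀ᵐ x, ‖G x‖ ^ n ≤ K * (G x).det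

section

variable {n : ℕ} {f : EuclideanSpace ℝ (Fin n) → EuclideanSpace ℝ (Fin n)}

lemma weak_of_lipschitz {C : ℝ≥0} (hf : LipschitzWith C f) : HasWeakDeriv f (fderiv ℝ f) := by
  intro φ hφ hφc v
  have hbd : ∀ x, ‖fderiv ℝ f x‖ ≤ C := fun x => norm_fderiv_le_of_lipschitz ℝ hf
  have hφ1 : ContDiff ℝ 1 φ := hφ.of_le (by exact_mod_cast le_top)
  obtain ⟨D, hD⟩ := hφ1.lipschitzWith_of_hasCompactSupport hφc one_ne_zero
  have hmeas : Measurable (fun x => fderiv ℝ f x v) := by
    exact (measurable_fderiv_apply_const ℝ f v)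
  have hint1 : Integrable (fun x => φ x • fderiv ℝ f x v) := by
    have hi : Integrable (fun x => ‖φ x‖ * (C * ‖v‖)) :=
      ((hφ.continuous.integrable_of_hasCompactSupport hφc).norm.mul_const _)
    refine hi.mono' (hφ.continuous.measurable.smul hmeas).aestronglyMeasurable
      (Eventually.of_forall fun x => ?_)
    rw [norm_smul]
    apply mul_le_mul_of_nonneg_left _ (norm_nonneg _)
    exact ((fderiv ℝ f x).le_opNorm v).trans (mul_le_mul_of_nonneg_right (hbd x) (norm_nonneg _))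
  have hcs : HasCompactSupport (fun x => (fderiv ℝ φ x v)) := hφc.fderiv_apply (𝕜 := ℝ) v
  have hcont : Continuous (fun x => fderiv ℝ φ x v) :=
    (hφ1.continuous_fderiv one_ne_zero).clm_apply continuous_const
  have hint2 : Integrable (fun x => (fderiv ℝ φ x v) • f x) :=
    (hcont.smul hf.continuous).integrable_of_hasCompactSupport hcs.smul_right
  apply ext_inner_left ℝ
  intro w
  rw [inner_neg_right, ← integral_inner hint1, ← integral_inner hint2, ← integral_neg]
  have hfw : LipschitzWith (‖innerSL ℝ w‖₊ * C) (fun x => ⟪w, f x⟫) :=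
    (innerSL ℝ w).lipschitz.comp hf
  have hkey := hfw.integral_lineDeriv_mul_eq (μ := volume) hD hφc v
  have hdiff : ∀ᵐ x, DifferentiableAt ℝ f x := hf.ae_differentiableAt
  calc ∫ x, ⟪w, φ x • fderiv ℝ f x v⟫ = ∫ x, lineDeriv ℝ (fun x => ⟪w, f x⟫) x v * φ x := by
        apply integral_congr_ae
        filter_upwards [hdiff] with x hx
        have h1 : HasFDerivAt (fun x => ⟪w, f x⟫) ((innerSL ℝ w).comp (fderiv ℝ f x)) x :=
          (innerSL ℝ w).hasFDerivAt.comp x hx.hasFDerivAt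
        rw [(h1.hasLineDerivAt v).lineDeriv, inner_smul_right]
        simp [mul_comm]
    _ = ∫ x, lineDeriv ℝ φ x (-v) * ⟪w, f x⟫ := hkey
    _ = ∫ x, - ⟪w, (fderiv ℝ φ x v) • f x⟫ := by
        apply integral_congr_ae
        refine Eventually.of_forall fun x => ?_
        simp only
        rw [(hφ1.differentiable one_ne_zero x).lineDeriv_eq_fderiv, inner_smul_right, map_neg]
        ring

end

theorem main (n : ℕ) (hn : 2 ≤ n) :
    ∃ f : EuclideanSpace ℝ (Fin n) → EuclideanSpace ℝ (Fin n),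
      IsQuasiconformal f ∧ (∃ L, LipschitzWith L f) ∧
        ∃ E : Set (EuclideanSpace ℝ (Fin n)),
          dimA E ≤ ENNReal.ofReal (1 / 4) ∧ ENNReal.ofReal (1 / 2) ≤ dimA (f '' E) := by
  have hfin : Module.finrank ℝ (EuclideanSpace ℝ (Fin n)) = n := by simp
  have hn1 : 1 ≤ Module.finrank ℝ (EuclideanSpace ℝ (Fin n)) := by omega
  let e : EuclideanSpace ℝ (Fin n) := EuclideanSpace.single ⟨0, by omega⟩ 1
  have he : ‖e‖ = 1 := by simp [e]
  obtain ⟨K, L, hK, hL, hgood⟩ := exists_good hn1 he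
  have hlip : LipschitzWith (Real.toNNReal (1 + 2 * L)) (fmap e) := by
    apply LipschitzWith.of_dist_le_mul
    intro x y
    rw [dist_eq_norm, dist_eq_norm, Real.coe_toNNReal _ (by positivity)]
    unfold fmap
    have h1 := multi_lip hL one_pos (sep_X he) hgood x y
    calc _ = ‖(x - y) + (multi (X e) 1 (fun k => FD (gD e k) k) x -
          multi (X e) 1 (fun k => FD (gD e k) k) y)‖ := by congr 1; abel
      _ ≤ _ := (norm_add_le _ _).trans (by linarith)
  have hbd : ∀ x, ‖x‖ - 2 ≤ ‖fmap e x‖ := by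
    intro x
    have h1 : ‖multi (X e) 1 (fun k => FD (gD e k) k) x‖ ≤ 2 := by
      by_cases hx : ∃ i, ‖x - X e i‖ < 1
      · obtain ⟨i, hi⟩ := hx
        rw [multi_in (sep_X he) hi, one_smul]
        exact (hgood i).norm_le _
      · push Not at hx
        rw [multi_out hx]
        simp
    have h2 : ‖x‖ ≤ ‖fmap e x‖ + ‖multi (X e) 1 (fun k => FD (gD e k) k) x‖ := by
      have : x = fmap e x - multi (X e) 1 (fun k => FD (gD e k) k) x := by
        unfold fmap; abel
      calc ‖x‖ = ‖fmap e x - multi (X e) 1 (fun k => FD (gD e k) k) x‖ := by rw [← this]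
        _ ≤ _ := norm_sub_le _ _
    linarith
  have hbij : Function.Bijective (fmap e) := multi_bij one_pos (sep_X he) hgood
  have hproper : IsProperMap (fmap e) := by
    rw [isProperMap_iff_tendsto_cocompact]
    refine ⟨hlip.continuous, ?_⟩
    rw [← Metric.cobounded_eq_cocompact, ← tendsto_norm_atTop_iff_cobounded]
    refine tendsto_atTop_mono hbd ?_
    exact tendsto_atTop_add_const_right _ (-2) tendsto_norm_cobounded_atTop
  have hhomeo : IsHomeomorph (fmap e) :=
    isHomeomorph_iff_continuous_isClosedMap_bijective.2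
      ⟨hlip.continuous, hproper.isClosedMap, hbij⟩
  have hqc := multi_qc hK one_pos (sep_X he) (closed_X he) hgood
  refine ⟨fmap e, ⟨hhomeo, fderiv ℝ (fmap e), ?_, weak_of_lipschitz hlip, ?_, ?_, K, hK, ?_⟩,
    ⟨_, hlip⟩, Eset e, dimA_le he, dimA_image_ge hn1 he⟩
  · exact (measurable_fderiv ℝ (fmap e)).aestronglyMeasurable
  · exact (hlip.continuous.norm.pow n).locallyIntegrable
  · have hc : LocallyIntegrable
        (fun _ : EuclideanSpace ℝ (Fin n) => ((Real.toNNReal (1 + 2 * L) : ℝ)) ^ n) :=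
      locallyIntegrable_const _
    refine hc.mono ((measurable_fderiv ℝ (fmap e)).norm.pow_const n).aestronglyMeasurable
      (Eventually.of_forall fun x => ?_)
    rw [norm_pow, norm_norm, norm_pow, Real.norm_eq_abs, abs_of_nonneg (NNReal.coe_nonneg _)]
    exact pow_le_pow_left₀ (norm_nonneg _) (norm_fderiv_le_of_lipschitz ℝ hlip) n
  · filter_upwards [hqc] with x hx
    obtain ⟨A, hA, hqA⟩ := hx
    have : fderiv ℝ (fmap e) x = A := hA.fderiv
    rw [this]
    unfold QCat at hqA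
    rwa [hfin] at hqA

end Pool.Agent.R219.LQ
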