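import Pool.Agent.R219.LQ.Basic

open Set Metric Filter Topology MeasureTheory
open scoped RealInnerProductSpace

namespace Pool.Agent.R219.LQ

set_option linter.unusedSectionVars false
set_option linter.unusedVariables false

variable {V : Type*} [NormedAddCommGroup V] [InnerProductSpace ℝ V] [FiniteDimensional ℝ V]
  [MeasurableSpace V] [BorelSpace V]

/-- The radius clamped to `[a, 1]`. -/
noncomputable def clamp (a r : ℝ) : ℝ := max a (min r 1)

/-- Insertion of the displacement `D` in a ring: the ball of radius `a` goes to the ball of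
radius `b`. -/
noncomputable def ringD (a b : ℝ) (D : V → V) : V → V := fun x =>
  ((b - a) / (1 - a) * ((clamp a ‖x‖)⁻¹ - 1)) • x + b • D (a⁻¹ • x)

variable {a b K L : ℝ} {D : V → V}

lemma clamp_pos (ha : 0 < a) (r : ℝ) : 0 < clamp a r := lt_max_of_lt_left ha

lemma clamp_ge (r : ℝ) : a ≤ clamp a r := le_max_left _ _

lemma clamp_le (ha1 : a ≤ 1) (r : ℝ) : clamp a r ≤ 1 := max_le ha1 (min_le_right _ _)

lemma clamp_lip (r s : ℝ) : |clamp a r - clamp a s| ≤ |r - s| := by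
  unfold clamp
  have h1 := abs_max_sub_max_le_max a (min r 1) a (min s 1)
  have h2 := abs_min_sub_min_le_max r 1 s 1
  simp only [sub_self, abs_zero] at h1 h2
  have h3 : (0:ℝ) ≤ |r - s| := abs_nonneg _
  rw [max_eq_right (abs_nonneg (min r 1 - min s 1))] at h1
  rw [max_eq_left h3] at h2
  exact h1.trans h2

lemma ring_in (ha : 0 < a) (ha1 : a < 1) {x : V} (hx : ‖x‖ ≤ a) :
    x + ringD a b D x = b • (a⁻¹ • x + D (a⁻¹ • x)) := by
  have hc : clamp a ‖x‖ = a := by
    unfold clamp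
    rw [min_eq_left (by linarith), max_eq_left hx]
  unfold ringD
  rw [hc, smul_add, ← add_assoc]
  congr 1
  have h1 : (1 : ℝ) - a ≠ 0 := by linarith
  have : b * a⁻¹ = 1 + (b - a) / (1 - a) * (a⁻¹ - 1) := by
    field_simp
    ring
  rw [smul_smul, this, add_smul, one_smul]

lemma D_zero (ha : 0 < a) (hD : Good K L D) {x : V} (hx : a ≤ ‖x‖) : D (a⁻¹ • x) = 0 := by
  apply hD.supp
  rw [norm_smul, norm_inv, Real.norm_eq_abs, abs_of_pos ha, le_inv_mul_iff₀ ha]
  linarith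

lemma ring_mid (ha : 0 < a) (ha1 : a < 1) (hD : Good K L D) {x : V} (hx : a ≤ ‖x‖)
    (hx1 : ‖x‖ ≤ 1) :
    x + ringD a b D x = ((1 - b) / (1 - a) + (b - a) / (1 - a) * ‖x‖⁻¹) • x := by
  have hc : clamp a ‖x‖ = ‖x‖ := by
    unfold clamp
    rw [min_eq_left hx1, max_eq_right hx]
  unfold ringD
  rw [hc, D_zero ha hD hx, smul_zero, add_zero]
  have h1 : (1 : ℝ) - a ≠ 0 := by linarith
  have : (1 - b) / (1 - a) + (b - a) / (1 - a) * ‖x‖⁻¹ =
      1 + (b - a) / (1 - a) * (‖x‖⁻¹ - 1) := by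
    field_simp
    ring
  rw [this, add_smul, one_smul]

lemma ring_out (ha : 0 < a) (ha1 : a < 1) (hD : Good K L D) {x : V} (hx : 1 ≤ ‖x‖) :
    ringD a b D x = 0 := by
  have hc : clamp a ‖x‖ = 1 := by
    unfold clamp
    rw [min_eq_right hx, max_eq_right ha1.le]
  unfold ringD
  rw [hc, D_zero ha hD (by linarith)]
  simp

lemma ring_norm_in (ha : 0 < a) (ha1 : a < 1) (hb : 0 < b) (hD : Good K L D) {x : V}
    (hx : ‖x‖ < a) : ‖x + ringD a b D x‖ < b := by
  rw [ring_in ha ha1 hx.le, norm_smul, Real.norm_eq_abs, abs_of_pos hb]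
  have : ‖a⁻¹ • x‖ < 1 := by
    rw [norm_smul, norm_inv, Real.norm_eq_abs, abs_of_pos ha, inv_mul_lt_iff₀ ha]
    linarith
  have := hD.norm_lt this
  nlinarith

lemma coef_pos (ha : 0 < a) (ha1 : a < 1) (hb : 0 < b) (hb1 : b < 1) {r : ℝ} (hr : a ≤ r) :
    b ≤ (1 - b) / (1 - a) * r + (b - a) / (1 - a) := by
  have h1 : (0 : ℝ) < 1 - a := by linarith
  have h2 : (1 - b) / (1 - a) * r + (b - a) / (1 - a) - b = (1 - b) / (1 - a) * (r - a) := by
    field_simp
    ring
  have h3 : 0 ≤ (1 - b) / (1 - a) * (r - a) :=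
    mul_nonneg (div_nonneg (by linarith) h1.le) (by linarith)
  linarith

lemma coef_pos' (ha : 0 < a) (ha1 : a < 1) (hb : 0 < b) (hb1 : b < 1) {r : ℝ} (hr : a ≤ r) :
    0 < (1 - b) / (1 - a) + (b - a) / (1 - a) * r⁻¹ := by
  have hr0 : 0 < r := by linarith
  have h := coef_pos ha ha1 hb hb1 hr
  have : (1 - b) / (1 - a) + (b - a) / (1 - a) * r⁻¹ =
      ((1 - b) / (1 - a) * r + (b - a) / (1 - a)) * r⁻¹ := by
    field_simp
  rw [this]
  exact mul_pos (by linarith) (inv_pos.2 hr0)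

lemma ring_norm_mid (ha : 0 < a) (ha1 : a < 1) (hb : 0 < b) (hb1 : b < 1) (hD : Good K L D)
    {x : V} (hx : a ≤ ‖x‖) (hx1 : ‖x‖ ≤ 1) :
    ‖x + ringD a b D x‖ = (1 - b) / (1 - a) * ‖x‖ + (b - a) / (1 - a) := by
  rw [ring_mid ha ha1 hD hx hx1, norm_smul, Real.norm_eq_abs,
    abs_of_pos (coef_pos' ha ha1 hb hb1 hx)]
  have : ‖x‖ ≠ 0 := by linarith
  field_simp

lemma ring_bij (ha : 0 < a) (ha1 : a < 1) (hb : 0 < b) (hb1 : b < 1) (hD : Good K L D) :
    Function.Bijective (fun x => x + ringD a b D x) := by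
  have h1a : (0 : ℝ) < 1 - a := by linarith
  have h1b : (0 : ℝ) < 1 - b := by linarith
  have hp : 0 < (1 - b) / (1 - a) := div_pos h1b h1a
  have hpq : (1 - b) / (1 - a) + (b - a) / (1 - a) = 1 := by
    field_simp
    ring
  -- norms
  have hout : ∀ x : V, 1 ≤ ‖x‖ → x + ringD a b D x = x := fun x hx => by
    rw [ring_out ha ha1 hD hx, add_zero]
  have hge : ∀ x : V, a ≤ ‖x‖ → b ≤ ‖x + ringD a b D x‖ := by
    intro x hx
    by_cases h : ‖x‖ ≤ 1
    · rw [ring_norm_mid ha ha1 hb hb1 hD hx h]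
      exact coef_pos ha ha1 hb hb1 hx
    · push Not at h
      rw [hout x h.le]
      linarith
  have hlt1 : ∀ x : V, ‖x‖ < 1 → ‖x + ringD a b D x‖ < 1 := by
    intro x hx
    by_cases h : ‖x‖ < a
    · exact (ring_norm_in ha ha1 hb hD h).trans hb1
    · push Not at h
      rw [ring_norm_mid ha ha1 hb hb1 hD h hx.le]
      nlinarith
  have hinj : Function.Injective (fun x => x + ringD a b D x) := by
    intro x y hxy
    simp only at hxy
    by_cases hx : ‖x‖ < a
    · have hy : ‖y‖ < a := by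
        by_contra hy
        push Not at hy
        have h1 := ring_norm_in ha ha1 hb hD hx
        have h2 := hge y hy
        rw [← hxy] at h2
        linarith
      rw [ring_in ha ha1 hx.le, ring_in ha ha1 hy.le] at hxy
      have h1 := hD.bij.1 (smul_right_injective V hb.ne' hxy)
      exact smul_right_injective V (inv_ne_zero ha.ne') h1
    · push Not at hx
      have hy : a ≤ ‖y‖ := by
        by_contra hy
        push Not at hy
        have h1 := ring_norm_in ha ha1 hb hD hy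
        have h2 := hge x hx
        rw [hxy] at h2
        linarith
      by_cases hx1 : ‖x‖ < 1
      · have hy1 : ‖y‖ < 1 := by
          by_contra hy1
          push Not at hy1
          have h1 := hlt1 x hx1
          rw [hxy, hout y hy1] at h1
          linarith
        have h3 := congrArg norm hxy
        rw [ring_norm_mid ha ha1 hb hb1 hD hx hx1.le,
          ring_norm_mid ha ha1 hb hb1 hD hy hy1.le] at h3
        have h4 : ‖x‖ = ‖y‖ := by
          have : (1 - b) / (1 - a) * ‖x‖ = (1 - b) / (1 - a) * ‖y‖ := by linarith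
          exact mul_left_cancel₀ hp.ne' this
        rw [ring_mid ha ha1 hD hx hx1.le, ring_mid ha ha1 hD hy hy1.le, h4] at hxy
        exact smul_right_injective V (coef_pos' ha ha1 hb hb1 hy).ne' hxy
      · push Not at hx1
        have hy1 : 1 ≤ ‖y‖ := by
          by_contra hy1
          push Not at hy1
          have h1 := hlt1 y hy1
          rw [← hxy, hout x hx1] at h1
          linarith
        rwa [hout x hx1, hout y hy1] at hxy
  refine ⟨hinj, fun y => ?_⟩
  by_cases hy : ‖y‖ < b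
  · obtain ⟨x, hx, hxy⟩ := hD.exists_preimage (y := b⁻¹ • y) (by
      rw [norm_smul, norm_inv, Real.norm_eq_abs, abs_of_pos hb, inv_mul_lt_iff₀ hb]
      linarith)
    have hxa : ‖a • x‖ ≤ a := by
      rw [norm_smul, Real.norm_eq_abs, abs_of_pos ha]
      nlinarith
    refine ⟨a • x, ?_⟩
    simp only
    rw [ring_in ha ha1 hxa, inv_smul_smul₀ ha.ne', hxy, smul_inv_smul₀ hb.ne']
  · push Not at hy
    by_cases hy1 : ‖y‖ < 1
    · have hy0 : 0 < ‖y‖ := by linarith
      set r := (‖y‖ - (b - a) / (1 - a)) / ((1 - b) / (1 - a)) with hr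
      have hpr : (1 - b) / (1 - a) * r + (b - a) / (1 - a) = ‖y‖ := by
        rw [hr, mul_div_cancel₀ _ hp.ne']
        ring
      have hra : a ≤ r := by
        have h2 : (1 - b) / (1 - a) * a + (b - a) / (1 - a) = b := by
          field_simp
          ring
        have : (1 - b) / (1 - a) * a ≤ (1 - b) / (1 - a) * r := by linarith
        exact le_of_mul_le_mul_left this hp
      have hr1 : r ≤ 1 := by
        have : (1 - b) / (1 - a) * r ≤ (1 - b) / (1 - a) * 1 := by linarith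
        exact le_of_mul_le_mul_left this hp
      have hr0 : 0 < r := by linarith
      have hn : ‖(r * ‖y‖⁻¹) • y‖ = r := by
        rw [norm_smul, Real.norm_eq_abs, abs_of_pos (by positivity)]
        field_simp
      refine ⟨(r * ‖y‖⁻¹) • y, ?_⟩
      simp only
      rw [ring_mid ha ha1 hD (by rw [hn]; exact hra) (by rw [hn]; exact hr1), hn, smul_smul]
      have : ((1 - b) / (1 - a) + (b - a) / (1 - a) * r⁻¹) * (r * ‖y‖⁻¹) = 1 := by
        have : ((1 - b) / (1 - a) + (b - a) / (1 - a) * r⁻¹) * (r * ‖y‖⁻¹) =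
          ((1 - b) / (1 - a) * r + (b - a) / (1 - a)) * ‖y‖⁻¹ := by
          field_simp
        rw [this, hpr, mul_inv_cancel₀ hy0.ne']
      rw [this, one_smul]
    · push Not at hy1
      exact ⟨y, hout y hy1⟩

lemma ring_lip (ha : 0 < a) (ha1 : a < 1) (hb : 0 < b) (hD : Good K L D) (x y : V) :
    ‖ringD a b D x - ringD a b D y‖ ≤
      (|(b - a) / (1 - a)| * (a⁻¹ ^ 2 + a⁻¹) + b / a * L) * ‖x - y‖ := by
  have hu : ∀ x y : V, |(clamp a ‖x‖)⁻¹ - (clamp a ‖y‖)⁻¹| ≤ a⁻¹ ^ 2 * ‖x - y‖ := by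
    intro x y
    have hx := clamp_pos ha ‖x‖
    have hy := clamp_pos ha ‖y‖
    rw [inv_sub_inv hx.ne' hy.ne', abs_div, abs_of_pos (mul_pos hx hy), div_le_iff₀ (mul_pos hx hy)]
    have h1 := clamp_lip (a := a) ‖y‖ ‖x‖
    have h2 := abs_norm_sub_norm_le y x
    rw [norm_sub_rev] at h2
    have h3 : 1 ≤ a⁻¹ ^ 2 * (clamp a ‖x‖ * clamp a ‖y‖) := by
      have := mul_le_mul (clamp_ge (a := a) ‖x‖) (clamp_ge (a := a) ‖y‖) ha.le hx.le
      calc (1 : ℝ) = a⁻¹ ^ 2 * (a * a) := by field_simp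
        _ ≤ _ := mul_le_mul_of_nonneg_left this (by positivity)
    calc |clamp a ‖y‖ - clamp a ‖x‖| ≤ ‖x - y‖ := h1.trans h2
      _ = 1 * ‖x - y‖ := (one_mul _).symm
      _ ≤ (a⁻¹ ^ 2 * (clamp a ‖x‖ * clamp a ‖y‖)) * ‖x - y‖ :=
        mul_le_mul_of_nonneg_right h3 (norm_nonneg _)
      _ = _ := by ring
  have hv : ∀ x : V, |(clamp a ‖x‖)⁻¹ - 1| ≤ a⁻¹ := by
    intro x
    have hx := clamp_pos ha ‖x‖
    have h1 : 1 ≤ (clamp a ‖x‖)⁻¹ := (one_le_inv₀ hx).2 (clamp_le ha1.le _)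
    have h2 : (clamp a ‖x‖)⁻¹ ≤ a⁻¹ := (inv_le_inv₀ hx ha).2 (clamp_ge _)
    rw [abs_of_nonneg (by linarith)]
    linarith
  have hw : ∀ x y : V, ‖x‖ ≤ 1 → ‖((clamp a ‖x‖)⁻¹ - 1) • x - ((clamp a ‖y‖)⁻¹ - 1) • y‖ ≤
      (a⁻¹ ^ 2 + a⁻¹) * ‖x - y‖ := by
    intro x y hx
    have : ((clamp a ‖x‖)⁻¹ - 1) • x - ((clamp a ‖y‖)⁻¹ - 1) • y =
        ((clamp a ‖x‖)⁻¹ - (clamp a ‖y‖)⁻¹) • x + ((clamp a ‖y‖)⁻¹ - 1) • (x - y) := by
      module
    rw [this]
    refine (norm_add_le _ _).trans ?_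
    rw [norm_smul, norm_smul, Real.norm_eq_abs, Real.norm_eq_abs, add_mul]
    apply add_le_add
    · calc _ ≤ (a⁻¹ ^ 2 * ‖x - y‖) * 1 :=
          mul_le_mul (hu x y) hx (norm_nonneg _) (by positivity)
        _ = _ := mul_one _
    · exact mul_le_mul_of_nonneg_right (hv y) (norm_nonneg _)
  have hw' : ‖((clamp a ‖x‖)⁻¹ - 1) • x - ((clamp a ‖y‖)⁻¹ - 1) • y‖ ≤
      (a⁻¹ ^ 2 + a⁻¹) * ‖x - y‖ := by
    by_cases hx : ‖x‖ ≤ 1
    · exact hw x y hx
    · by_cases hy : ‖y‖ ≤ 1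
      · have := hw y x hy
        rwa [norm_sub_rev, norm_sub_rev y x] at this
      · push Not at hx hy
        have hcx : clamp a ‖x‖ = 1 := by
          unfold clamp
          rw [min_eq_right hx.le, max_eq_right ha1.le]
        have hcy : clamp a ‖y‖ = 1 := by
          unfold clamp
          rw [min_eq_right hy.le, max_eq_right ha1.le]
        rw [hcx, hcy]
        simp
        positivity
  have hsplit : ringD a b D x - ringD a b D y =
      ((b - a) / (1 - a)) • (((clamp a ‖x‖)⁻¹ - 1) • x - ((clamp a ‖y‖)⁻¹ - 1) • y) +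
      b • (D (a⁻¹ • x) - D (a⁻¹ • y)) := by
    unfold ringD
    module
  rw [hsplit]
  refine (norm_add_le _ _).trans ?_
  rw [norm_smul, norm_smul, Real.norm_eq_abs, Real.norm_eq_abs, abs_of_pos hb, add_mul]
  apply add_le_add
  · rw [mul_assoc]
    exact mul_le_mul_of_nonneg_left hw' (abs_nonneg _)
  · have h1 := hD.lip (a⁻¹ • x) (a⁻¹ • y)
    rw [← smul_sub, norm_smul, norm_inv, Real.norm_eq_abs, abs_of_pos ha] at h1
    calc _ ≤ b * (L * (a⁻¹ * ‖x - y‖)) := mul_le_mul_of_nonneg_left h1 hb.le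
      _ = _ := by ring

end Pool.Agent.R219.LQ
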