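import Pool.Agent.R219.LQ.Ring

open Set Metric Filter Topology MeasureTheory
open scoped RealInnerProductSpace

namespace Pool.Agent.R219.LQ

set_option linter.unusedSectionVars false
set_option linter.unusedVariables false

variable {V : Type*} [NormedAddCommGroup V] [InnerProductSpace ℝ V] [FiniteDimensional ℝ V]
  [MeasurableSpace V] [BorelSpace V]

variable {a b K L : ℝ} {D : V → V}

lemma det_rank_one {α : ℝ} (hα : α ≠ 0) (f : V →L[ℝ] ℝ) (v : V) :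
    (α • ContinuousLinearMap.id ℝ V + f.smulRight v).det =
      α ^ (Module.finrank ℝ V) * (1 + α⁻¹ * f v) := by
  have h : ((α • ContinuousLinearMap.id ℝ V + f.smulRight v : V →L[ℝ] V) : V →ₗ[ℝ] V) =
      α • LinearMap.transvection (α⁻¹ • (f : V →ₗ[ℝ] ℝ)) v := by
    ext w
    simp [LinearMap.transvection, smul_smul, hα]
  rw [ContinuousLinearMap.det, h, LinearMap.det_smul, LinearMap.transvection.det]
  simp

lemma hasFDerivAt_radial (p q : ℝ) {x : V} (hx : x ≠ 0) :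
    HasFDerivAt (fun y : V => (p + q * ‖y‖⁻¹) • y)
      ((p + q * ‖x‖⁻¹) • ContinuousLinearMap.id ℝ V +
        (-(q * ‖x‖⁻¹ ^ 3) • innerSL ℝ x).smulRight x) x := by
  have hn : ‖x‖ ≠ 0 := norm_ne_zero_iff.2 hx
  have h1 : HasFDerivAt (fun y : V => ‖y‖ ^ 2) (2 • innerSL ℝ x) x :=
    (hasStrictFDerivAt_norm_sq x).hasFDerivAt
  have h2 := h1.sqrt (pow_ne_zero 2 hn)
  have h3 : HasFDerivAt (fun y : V => ‖y‖) (‖x‖⁻¹ • innerSL ℝ x) x := by
    have e : (fun y : V => √(‖y‖ ^ 2)) = fun y => ‖y‖ := by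
      funext y; exact Real.sqrt_sq (norm_nonneg y)
    rw [e, Real.sqrt_sq (norm_nonneg x)] at h2
    convert h2 using 1
    ext w
    simp
    field_simp
  have h4 : HasFDerivAt (fun y : V => ‖y‖⁻¹) ((-(‖x‖ ^ 2)⁻¹) • (‖x‖⁻¹ • innerSL ℝ x)) x :=
    (hasDerivAt_inv hn).comp_hasFDerivAt x h3
  have h5 : HasFDerivAt (fun y : V => p + q * ‖y‖⁻¹)
      (q • ((-(‖x‖ ^ 2)⁻¹) • (‖x‖⁻¹ • innerSL ℝ x))) x := (h4.const_mul q).const_add p
  have h6 := h5.smul (hasFDerivAt_id x)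
  refine h6.congr_fderiv ?_
  ext w
  simp [smul_smul]
  congr 1
  field_simp

lemma ring_qc_mid (hn : 1 ≤ Module.finrank ℝ V) (ha : 0 < a) (ha1 : a < 1) (hb : 0 < b)
    (hb1 : b < 1)
    (hK : ((1 - b) / (1 - a) + 2 * |(b - a) / (1 - a)| * a⁻¹) ^ (Module.finrank ℝ V) ≤
      K * (b ^ (Module.finrank ℝ V - 1) * ((1 - b) / (1 - a)))) (hK0 : 0 ≤ K)
    {x : V} (hx : a < ‖x‖) (hx1 : ‖x‖ < 1) :
    QCat K (((1 - b) / (1 - a) + (b - a) / (1 - a) * ‖x‖⁻¹) • ContinuousLinearMap.id ℝ V +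
        (-((b - a) / (1 - a) * ‖x‖⁻¹ ^ 3) • innerSL ℝ x).smulRight x) := by
  have hx0 : 0 < ‖x‖ := ha.trans hx
  have h1a : (0 : ℝ) < 1 - a := by linarith
  have h1b : (0 : ℝ) < 1 - b := by linarith
  set p := (1 - b) / (1 - a) with hp
  set q := (b - a) / (1 - a) with hq
  have hp0 : 0 < p := div_pos h1b h1a
  set n := Module.finrank ℝ V with hndef
  have hα : b ≤ p + q * ‖x‖⁻¹ := by
    have h := coef_pos ha ha1 hb hb1 hx.le
    have e : p + q * ‖x‖⁻¹ = (p * ‖x‖ + q) * ‖x‖⁻¹ := by field_simp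
    rw [e]
    have h2 : 1 ≤ ‖x‖⁻¹ := (one_le_inv₀ hx0).2 hx1.le
    nlinarith
  have hα0 : 0 < p + q * ‖x‖⁻¹ := lt_of_lt_of_le hb hα
  unfold QCat
  rw [det_rank_one hα0.ne']
  have hf : (-(q * ‖x‖⁻¹ ^ 3) • innerSL ℝ x) x = - (q * ‖x‖⁻¹) := by
    simp only [_root_.smul_apply, innerSL_apply_apply, smul_eq_mul,
      real_inner_self_eq_norm_sq]
    field_simp
  rw [hf, ← hndef]
  have hdet : (p + q * ‖x‖⁻¹) ^ n * (1 + (p + q * ‖x‖⁻¹)⁻¹ * -(q * ‖x‖⁻¹)) =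
      (p + q * ‖x‖⁻¹) ^ (n - 1) * p := by
    obtain ⟨m, hm⟩ : ∃ m, n = m + 1 := ⟨n - 1, by omega⟩
    have e : q * ‖x‖⁻¹ = (p + q * ‖x‖⁻¹) - p := by ring
    rw [hm, Nat.add_sub_cancel, pow_succ]
    generalize p + q * ‖x‖⁻¹ = α at e hα0 ⊢
    rw [e]
    have h0 : α ≠ 0 := hα0.ne'
    have : 1 + α⁻¹ * -(α - p) = α⁻¹ * p := by
      field_simp
      ring
    rw [this, mul_assoc, mul_inv_cancel_left₀ h0]
  rw [hdet]
  have hnorm : ‖(p + q * ‖x‖⁻¹) • ContinuousLinearMap.id ℝ V +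
        (-(q * ‖x‖⁻¹ ^ 3) • innerSL ℝ x).smulRight x‖ ≤ p + 2 * |q| * a⁻¹ := by
    have hxa : ‖x‖⁻¹ ≤ a⁻¹ := (inv_le_inv₀ hx0 ha).2 hx.le
    have hq1 : q * ‖x‖⁻¹ ≤ |q| * a⁻¹ :=
      mul_le_mul (le_abs_self q) hxa (inv_nonneg.2 hx0.le) (abs_nonneg _)
    refine (norm_add_le _ _).trans ?_
    have e1 : ‖(p + q * ‖x‖⁻¹) • ContinuousLinearMap.id ℝ V‖ ≤ p + |q| * a⁻¹ := by
      rw [norm_smul, Real.norm_eq_abs, abs_of_pos hα0]
      calc _ ≤ (p + q * ‖x‖⁻¹) * 1 :=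
            mul_le_mul_of_nonneg_left ContinuousLinearMap.norm_id_le hα0.le
        _ ≤ _ := by linarith
    have e2 : ‖(-(q * ‖x‖⁻¹ ^ 3) • innerSL ℝ x).smulRight x‖ ≤ |q| * a⁻¹ := by
      rw [ContinuousLinearMap.norm_smulRight_apply, norm_smul, innerSL_apply_norm, norm_neg,
        Real.norm_eq_abs, abs_mul, abs_of_nonneg (pow_nonneg (inv_nonneg.2 hx0.le) 3)]
      have : |q| * ‖x‖⁻¹ ^ 3 * ‖x‖ * ‖x‖ = |q| * ‖x‖⁻¹ := by field_simp
      rw [this]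
      exact mul_le_mul_of_nonneg_left hxa (abs_nonneg _)
    linarith
  calc _ ≤ (p + 2 * |q| * a⁻¹) ^ n := pow_le_pow_left₀ (norm_nonneg _) hnorm n
    _ ≤ K * (b ^ (n - 1) * p) := hK
    _ ≤ _ := by
      apply mul_le_mul_of_nonneg_left _ hK0
      exact mul_le_mul_of_nonneg_right (pow_le_pow_left₀ hb.le hα _) hp0.le

lemma good_ring (hn : 1 ≤ Module.finrank ℝ V) (ha : 0 < a) (ha1 : a < 1) (hb : 0 < b)
    (hb1 : b < 1)
    (hK : ((1 - b) / (1 - a) + 2 * |(b - a) / (1 - a)| * a⁻¹) ^ (Module.finrank ℝ V) ≤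
      K * (b ^ (Module.finrank ℝ V - 1) * ((1 - b) / (1 - a)))) (hK1 : 1 ≤ K)
    (hD : Good K L D) :
    Good K (|(b - a) / (1 - a)| * (a⁻¹ ^ 2 + a⁻¹) + b / a * L) (ringD a b D) := by
  refine ⟨fun x hx => ring_out ha ha1 hD hx, ring_lip ha ha1 hb hD,
    ring_bij ha ha1 hb hb1 hD, ?_⟩
  have h1 := ae_comp_homothety hD.qc (inv_ne_zero ha.ne') 0
  have h2 : ∀ᵐ x : V, x ∉ sphere 0 a :=
    measure_eq_zero_iff_ae_notMem.1 (Measure.addHaar_sphere_of_ne_zero _ _ ha.ne')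
  have h3 : ∀ᵐ x : V, x ∉ sphere 0 1 :=
    measure_eq_zero_iff_ae_notMem.1 (Measure.addHaar_sphere_of_ne_zero _ _ one_ne_zero)
  filter_upwards [h1, h2, h3] with x h1 h2 h3
  rw [sub_zero] at h1
  rw [mem_sphere_zero_iff_norm] at h2 h3
  rcases lt_or_gt_of_ne h2 with hxa | hxa
  · obtain ⟨A, hA, hqA⟩ := h1
    have hin : HasFDerivAt (fun x : V => a⁻¹ • x) (a⁻¹ • ContinuousLinearMap.id ℝ V) x :=
      (hasFDerivAt_id x).const_smul a⁻¹
    have h4 := (hA.comp x hin).const_smul b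
    refine ⟨b • (A.comp (a⁻¹ • ContinuousLinearMap.id ℝ V)), ?_, ?_⟩
    · refine HasFDerivAt.congr_of_eventuallyEq h4 ?_
      have : ball (0 : V) a ∈ 𝓝 x := isOpen_ball.mem_nhds (by
        rw [mem_ball_zero_iff]; exact hxa)
      filter_upwards [this] with y hy
      rw [mem_ball_zero_iff] at hy
      exact ring_in ha ha1 hy.le
    · have e : b • (A.comp (a⁻¹ • ContinuousLinearMap.id ℝ V)) = (b * a⁻¹) • A := by
        ext v
        simp [smul_smul]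
      rw [e]
      exact qcat_smul (by positivity) hqA
  · rcases lt_or_gt_of_ne h3 with hx1 | hx1
    · refine ⟨_, ?_, ring_qc_mid hn ha ha1 hb hb1 hK (by linarith) hxa hx1⟩
      have hx0 : x ≠ 0 := norm_ne_zero_iff.1 (by linarith)
      refine HasFDerivAt.congr_of_eventuallyEq (hasFDerivAt_radial _ _ hx0) ?_
      have hopen : IsOpen {y : V | a < ‖y‖ ∧ ‖y‖ < 1} :=
        (isOpen_lt continuous_const continuous_norm).inter
          (isOpen_lt continuous_norm continuous_const)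
      filter_upwards [hopen.mem_nhds ⟨hxa, hx1⟩] with y hy
      exact ring_mid ha ha1 hD hy.1.le hy.2.le
    · refine ⟨ContinuousLinearMap.id ℝ V, ?_, qcat_id hK1⟩
      refine HasFDerivAt.congr_of_eventuallyEq (hasFDerivAt_id x) ?_
      have hopen : IsOpen {y : V | 1 < ‖y‖} := isOpen_lt continuous_const continuous_norm
      filter_upwards [hopen.mem_nhds hx1] with y hy
      rw [ring_out ha ha1 hD (le_of_lt hy), add_zero]
      rfl

end Pool.Agent.R219.LQ
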